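import Pool.Agent.K47485c.Sweep

/-!
# Good scales of every order imply strong sweeping out
-/

namespace Pool.Agent.K47485c

open MeasureTheory Set Filter Topology

lemma avg_mono {lam : ℕ → ℕ} {f g : UnitAddCircle → ℝ} (hfg : ∀ x, f x ≤ g x) (N : ℕ)
    (x : UnitAddCircle) : avg lam f N x ≤ avg lam g N x := by
  unfold avg
  gcongr
  exact hfg _

lemma avg_indicator_le_one (lam : ℕ → ℕ) (E : Set UnitAddCircle) (N : ℕ) (x : UnitAddCircle) :
    avg lam (E.indicator 1) N x ≤ 1 := by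
  unfold avg
  rcases Nat.eq_zero_or_pos N with rfl | hN
  · simp
  · have hNr : (0 : ℝ) < N := by exact_mod_cast hN
    rw [div_le_one hNr]
    calc ∑ n ∈ Finset.Icc 1 N, E.indicator (1 : UnitAddCircle → ℝ) (lam n • x)
        ≤ ∑ n ∈ Finset.Icc 1 N, (1 : ℝ) := by
          refine Finset.sum_le_sum (fun n _ => ?_)
          exact indicator_le_self' (fun _ _ => zero_le_one) _
      _ = N := by simp

lemma avg_indicator_nonneg (lam : ℕ → ℕ) (E : Set UnitAddCircle) (N : ℕ) (x : UnitAddCircle) :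
    0 ≤ avg lam (E.indicator 1) N x := by
  unfold avg
  refine div_nonneg (Finset.sum_nonneg (fun n _ => ?_)) (by positivity)
  exact indicator_nonneg (fun _ _ => zero_le_one) _

theorem sweeping_of_goodScale {p : ℝ} {om : ℕ → ℕ} (hom : ∀ i, om i = 2 ∨ om i = 3)
    (hgood : ∀ M : ℕ, 0 < M → ∀ m k : ℕ, GoodScale p om M (1 / (m + 1)) k)
    {ε : ℝ} (hε : 0 < ε) :
    ∃ E : Set UnitAddCircle, MeasurableSet E ∧ volume E ≤ ENNReal.ofReal ε ∧
      ∀ᵐ x : UnitAddCircle, limsup (fun N => avg (prodSeq om) (E.indicator 1) N x) atTop = 1 := by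
  have hex : ∀ m : ℕ, ∃ E : Set UnitAddCircle, MeasurableSet E ∧
      volume E ≤ ENNReal.ofReal (ε / 2 * (1 / 2) ^ m) ∧
      volume {x | ¬ ∃ N, m ≤ N ∧ 0 < N ∧ 1 - 1 / ((m : ℝ) + 1) ≤
        avg (prodSeq om) (E.indicator 1) N x} ≤ ENNReal.ofReal ((1 / 2) ^ m) := by
    intro m
    have hpos : 0 < ε / 2 * (1 / 2) ^ m := by positivity
    obtain ⟨M, hM⟩ := exists_nat_ge (2 / (ε / 2 * (1 / 2) ^ m) + 1)
    have hMr : 2 / (ε / 2 * (1 / 2) ^ m) ≤ M := by linarith
    have hM1 : (0 : ℝ) < M := by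
      have : 0 < 2 / (ε / 2 * (1 / 2) ^ m) := by positivity
      linarith
    have hM0 : 0 < M := by exact_mod_cast hM1
    obtain ⟨E, hE1, hE2, hE3⟩ := sweep hom hM0 (hgood M hM0 m m) (δ := (1 / 2) ^ m) (by positivity)
    refine ⟨E, hE1, hE2.trans (ENNReal.ofReal_le_ofReal ?_), hE3⟩
    rw [div_le_iff₀ hpos] at hMr
    rw [div_le_iff₀ hM1]
    linarith
  choose E hE1 hE2 hE3 using hex
  have hgeom : HasSum (fun m : ℕ => ε / 2 * (1 / 2) ^ m) ε := by
    have := (hasSum_geometric_two).mul_left (ε / 2)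
    convert! this using 1
    ring
  refine ⟨⋃ m, E m, MeasurableSet.iUnion hE1, ?_, ?_⟩
  · calc volume (⋃ m, E m) ≤ ∑' m, volume (E m) := measure_iUnion_le _
      _ ≤ ∑' m, ENNReal.ofReal (ε / 2 * (1 / 2) ^ m) := ENNReal.tsum_le_tsum hE2
      _ = ENNReal.ofReal ε := by
          rw [← ENNReal.ofReal_tsum_of_nonneg (fun m => by positivity) hgeom.summable,
            hgeom.tsum_eq]
  · have hsum : ∑' m : ℕ, volume {x | ¬ ∃ N, m ≤ N ∧ 0 < N ∧ 1 - 1 / ((m : ℝ) + 1) ≤
        avg (prodSeq om) ((E m).indicator 1) N x} ≠ ⊤ := by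
      refine ne_top_of_le_ne_top ?_ (ENNReal.tsum_le_tsum hE3)
      rw [← ENNReal.ofReal_tsum_of_nonneg (fun m => by positivity) summable_geometric_two]
      exact ENNReal.ofReal_ne_top
    filter_upwards [ae_eventually_notMem hsum] with x hx
    have hbdd : IsBoundedUnder (· ≤ ·) atTop
        (fun N => avg (prodSeq om) ((⋃ m, E m).indicator 1) N x) :=
      isBoundedUnder_of ⟨1, fun N => avg_indicator_le_one _ _ _ _⟩
    have hcob : IsCoboundedUnder (· ≤ ·) atTop
        (fun N => avg (prodSeq om) ((⋃ m, E m).indicator 1) N x) := by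
      refine IsBoundedUnder.isCoboundedUnder_le ?_
      exact isBoundedUnder_of ⟨0, fun N => avg_indicator_nonneg _ _ _ _⟩
    apply le_antisymm
    · refine limsup_le_of_le hcob (Eventually.of_forall (fun N => avg_indicator_le_one _ _ _ _))
    · refine le_of_forall_pos_sub_le (fun e he => ?_)
      refine le_limsup_of_frequently_le ?_ hbdd
      rw [frequently_atTop]
      intro n₀
      obtain ⟨n₁, hn₁⟩ := eventually_atTop.1 hx
      obtain ⟨n₂, hn₂⟩ := exists_nat_one_div_lt he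
      set m := max n₀ (max n₁ n₂) with hm
      have h1 : ∃ N, m ≤ N ∧ 0 < N ∧ 1 - 1 / ((m : ℝ) + 1) ≤
          avg (prodSeq om) ((E m).indicator 1) N x := by
        by_contra hc
        exact hn₁ m (le_trans (le_max_left _ _) (le_max_right _ _)) hc
      obtain ⟨N, hN1, hN2, hN3⟩ := h1
      refine ⟨N, (le_max_left _ _).trans hN1, ?_⟩
      have h2 : (1 : ℝ) / ((m : ℝ) + 1) ≤ 1 / ((n₂ : ℝ) + 1) := by
        apply one_div_le_one_div_of_le (by positivity)
        have : n₂ ≤ m := le_trans (le_max_right _ _) (le_max_right _ _)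
        have : (n₂ : ℝ) ≤ m := by exact_mod_cast this
        linarith
      have h3 : avg (prodSeq om) ((E m).indicator 1) N x ≤
          avg (prodSeq om) ((⋃ m, E m).indicator 1) N x := by
        refine avg_mono (fun y => ?_) N x
        exact indicator_le_indicator_of_subset (subset_iUnion E m) (fun _ => zero_le_one) y
      linarith

end Pool.Agent.K47485c
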