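import Pool.Agent.K47485c.Steer

/-!
# The behaviour of one long block: positive probability of moving up or down
-/

namespace Pool.Agent.K47485c

open MeasureTheory ProbabilityTheory Set Filter Topology

lemma measurable_psum (n : ℕ) : Measurable (fun z : ℕ → ℝ => psum z n) := by
  unfold psum
  exact Finset.measurable_fun_sum _ (fun i _ => measurable_pi_apply i)

section

variable {Ω : Type*} [MeasurableSpace Ω] {P : Measure Ω} [IsProbabilityMeasure P]
  {Y : ℕ → Ω → ℝ}

lemma measurable_psum_rv (hY : ∀ i, Measurable (Y i)) (n : ℕ) :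
    Measurable (fun ω => psum (fun i => Y i ω) n) := by
  unfold psum
  exact Finset.measurable_fun_sum _ (fun i _ => hY i)

lemma memLp_psum (hL2 : ∀ i, MemLp (Y i) 2 P) (n : ℕ) :
    MemLp (fun ω => psum (fun i => Y i ω) n) 2 P := by
  unfold psum
  exact memLp_finsetSum _ (fun i _ => hL2 i)

lemma integral_psum (hL2 : ∀ i, MemLp (Y i) 2 P) (h0 : ∀ i, ∫ ω, Y i ω ∂P = 0) (n : ℕ) :
    ∫ ω, psum (fun i => Y i ω) n ∂P = 0 := by
  unfold psum
  rw [integral_finsetSum _ (fun i _ => (hL2 i).integrable (by norm_num))]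
  simp [h0]

lemma variance_psum (hind : iIndepFun Y P) (hL2 : ∀ i, MemLp (Y i) 2 P) {v : ℝ}
    (hv : ∀ i, variance (Y i) P = v) (n : ℕ) :
    variance (fun ω => psum (fun i => Y i ω) n) P = n * v := by
  have h1 : (fun ω => psum (fun i => Y i ω) n) = ∑ i ∈ Finset.range n, Y i := by
    ext ω; simp [psum]
  rw [h1, IndepFun.variance_sum (fun i _ => hL2 i)
    (fun i _ j _ hij => hind.indepFun hij)]
  simp [hv]

lemma chebyshev_psum (hind : iIndepFun Y P) (hL2 : ∀ i, MemLp (Y i) 2 P)
    (h0 : ∀ i, ∫ ω, Y i ω ∂P = 0) {v : ℝ}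
    (hv : ∀ i, variance (Y i) P = v) (n : ℕ) {c : ℝ} (hc : 0 < c) :
    P {ω | c < |psum (fun i => Y i ω) n|} ≤ ENNReal.ofReal (n * v / c ^ 2) := by
  have h := meas_ge_le_variance_div_sq (memLp_psum hL2 n) hc
  rw [integral_psum hL2 h0, variance_psum hind hL2 hv] at h
  refine (measure_mono ?_).trans h
  intro ω hω
  have hω' : c < |psum (fun i => Y i ω) n| := hω
  show c ≤ |psum (fun i => Y i ω) n - 0|
  rw [sub_zero]
  exact hω'.le

/-- Most of the times in a long block are close to the start. -/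
lemma prob_count (hY : ∀ i, Measurable (Y i)) (hind : iIndepFun Y P)
    (hL2 : ∀ i, MemLp (Y i) 2 P)
    (h0 : ∀ i, ∫ ω, Y i ω ∂P = 0) {v : ℝ} (hv0 : 0 ≤ v)
    (hv : ∀ i, variance (Y i) P = v) {B : ℕ} (hB : 0 < B) {R e : ℝ} (hR : 0 < R) (he : 0 < e) :
    P {ω | e * B < (((Finset.range B).filter
      (fun n => R * √B < |psum (fun i => Y i ω) n|)).card : ℝ)} ≤
        ENNReal.ofReal (v / (R ^ 2 * e)) := by
  classical
  have hBr : (0 : ℝ) < B := by exact_mod_cast hB
  have hsq : (0 : ℝ) < √B := Real.sqrt_pos.2 hBr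
  set S : ℕ → Set Ω := fun n => {ω | R * √B < |psum (fun i => Y i ω) n|} with hS
  have hSm : ∀ n, MeasurableSet (S n) := fun n =>
    measurableSet_lt measurable_const (measurable_psum_rv hY n).abs
  set f : Ω → ENNReal := fun ω => ∑ n ∈ Finset.range B, (S n).indicator 1 ω with hf
  have hfm : Measurable f := by
    refine Finset.measurable_fun_sum _ (fun n _ => ?_)
    exact measurable_one.indicator (hSm n)
  have hcard : ∀ ω, f ω = (((Finset.range B).filter
      (fun n => R * √B < |psum (fun i => Y i ω) n|)).card : ENNReal) := by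
    intro ω
    rw [Finset.card_filter]
    push_cast
    refine Finset.sum_congr rfl (fun n _ => ?_)
    by_cases h : R * √B < |psum (fun i => Y i ω) n|
    · have : ω ∈ S n := h
      simp [this, h]
    · have : ω ∉ S n := h
      simp [this, h]
  have hint : ∫⁻ ω, f ω ∂P ≤ ENNReal.ofReal (B * (v / R ^ 2)) := by
    rw [hf, lintegral_finsetSum _ (fun n _ => measurable_one.indicator (hSm n))]
    calc ∑ n ∈ Finset.range B, ∫⁻ ω, (S n).indicator 1 ω ∂P
        = ∑ n ∈ Finset.range B, P (S n) :=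
          Finset.sum_congr rfl (fun n _ => lintegral_indicator_one (hSm n))
      _ ≤ ∑ n ∈ Finset.range B, ENNReal.ofReal (v / R ^ 2) := by
          refine Finset.sum_le_sum (fun n hn => ?_)
          refine (chebyshev_psum hind hL2 h0 hv n (c := R * √B) (by positivity)).trans ?_
          apply ENNReal.ofReal_le_ofReal
          rw [mul_pow, Real.sq_sqrt hBr.le]
          rw [div_le_div_iff₀ (by positivity) (by positivity)]
          have hn' : (n : ℝ) ≤ B := by exact_mod_cast (Finset.mem_range.1 hn).le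
          have : 0 ≤ v * R ^ 2 := by positivity
          nlinarith
      _ = ENNReal.ofReal (B * (v / R ^ 2)) := by
          rw [Finset.sum_const, Finset.card_range, ← ENNReal.ofReal_nsmul, nsmul_eq_mul]
  have hmarkov := meas_ge_le_lintegral_div (μ := P) hfm.aemeasurable
    (ε := ENNReal.ofReal (e * B)) (by simp; positivity) ENNReal.ofReal_ne_top
  calc P {ω | e * B < (((Finset.range B).filter
      (fun n => R * √B < |psum (fun i => Y i ω) n|)).card : ℝ)}
      ≤ P {ω | ENNReal.ofReal (e * B) ≤ f ω} := by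
        refine measure_mono ?_
        intro ω hω
        have hω' : e * B < (((Finset.range B).filter
          (fun n => R * √B < |psum (fun i => Y i ω) n|)).card : ℝ) := hω
        show ENNReal.ofReal (e * B) ≤ f ω
        rw [hcard, ← ENNReal.ofReal_natCast]
        exact ENNReal.ofReal_le_ofReal hω'.le
    _ ≤ (∫⁻ ω, f ω ∂P) / ENNReal.ofReal (e * B) := hmarkov
    _ ≤ ENNReal.ofReal (B * (v / R ^ 2)) / ENNReal.ofReal (e * B) := by
        gcongr
    _ = ENNReal.ofReal (v / (R ^ 2 * e)) := by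
        rw [← ENNReal.ofReal_div_of_pos (by positivity)]
        congr 1
        field_simp

/-- Central limit theorem: positive probability of a displacement of order `√B`. -/
lemma clt_lower (hY : ∀ i, Measurable (Y i)) (hind : iIndepFun Y P)
    (hident : ∀ i, IdentDistrib (Y i) (Y 0) P P)
    (hL2 : ∀ i, MemLp (Y i) 2 P) (h0 : ∀ i, ∫ ω, Y i ω ∂P = 0)
    (hv : variance (Y 0) P ≠ 0) {a b : ℝ} (hab : a < b) :
    ∃ q : ENNReal, q ≠ 0 ∧ q ≠ ⊤ ∧ ∀ᶠ B : ℕ in atTop,
      q ≤ P {ω | a < (√B)⁻¹ * psum (fun i => Y i ω) B ∧ (√B)⁻¹ * psum (fun i => Y i ω) B < b} := by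
  set ν := gaussianReal 0 (variance (Y 0) P).toNNReal with hν
  have hlaw : HasLaw (id : ℝ → ℝ) ν ν := HasLaw.id
  have hclt := tendstoInDistribution_inv_sqrt_mul_sum_sub hlaw (hL2 0) hind hident
  have hpos : ν (Ioo a b) ≠ 0 := by
    have hvv : (variance (Y 0) P).toNNReal ≠ 0 := by
      have : 0 < variance (Y 0) P := lt_of_le_of_ne (variance_nonneg _ _) (Ne.symm hv)
      simpa using this
    intro h
    have := gaussianReal_absolutelyContinuous' 0 hvv h
    rw [Real.volume_Ioo] at this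
    simp at this
    linarith
  have hlim := ProbabilityMeasure.le_liminf_measure_open_of_tendsto hclt.tendsto
    (isOpen_Ioo (a := a) (b := b))
  have hlt : ν (Ioo a b) / 2 < ν (Ioo a b) :=
    ENNReal.half_lt_self hpos (measure_ne_top _ _)
  refine ⟨ν (Ioo a b) / 2, ?_, ?_, ?_⟩
  · exact (ENNReal.half_pos hpos).ne'
  · exact ne_top_of_lt hlt
  · have hlim' : ν (Ioo a b) / 2 < liminf (fun n : ℕ => P.map (fun ω => (√(n : ℝ))⁻¹ *
        (∑ k ∈ Finset.range n, Y k ω - n * ∫ x, Y 0 x ∂P)) (Ioo a b)) atTop := by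
      refine lt_of_lt_of_le hlt ?_
      simpa using hlim
    filter_upwards [eventually_lt_of_lt_liminf hlim'] with B hB
    refine hB.le.trans ?_
    rw [Measure.map_apply]
    · refine measure_mono ?_
      intro ω hω
      have hω' : (√(B : ℝ))⁻¹ * (∑ k ∈ Finset.range B, Y k ω - B * ∫ x, Y 0 x ∂P) ∈ Ioo a b := hω
      rw [h0 0, mul_zero, sub_zero] at hω'
      exact hω'
    · exact (((Finset.measurable_fun_sum _ (fun i _ => hY i)).sub_const _).const_mul _)
    · exact measurableSet_Ioo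

/-- One block: with probability at least `q > 0` the walk moves up (respectively down) by an
amount between `r √B` and `R √B`, while staying most of the time within `R √B` of its start. -/
theorem block_lemma (hY : ∀ i, Measurable (Y i)) (hind : iIndepFun Y P)
    (hident : ∀ i, IdentDistrib (Y i) (Y 0) P P)
    (hL2 : ∀ i, MemLp (Y i) 2 P) (h0 : ∀ i, ∫ ω, Y i ω ∂P = 0)
    (hv : variance (Y 0) P ≠ 0) {e : ℝ} (he : 0 < e) :
    ∃ (r R : ℝ) (q : ENNReal), 0 < r ∧ r ≤ R ∧ q ≠ 0 ∧ ∀ᶠ B : ℕ in atTop,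
      q ≤ P {ω | BlockOK B (√B) r R e 1 (fun i => Y i ω)} ∧
      q ≤ P {ω | BlockOK B (√B) r R e (-1) (fun i => Y i ω)} := by
  classical
  obtain ⟨q₁, hq₁0, hq₁t, hq₁⟩ := clt_lower hY hind hident hL2 h0 hv (one_lt_two (α := ℝ))
  obtain ⟨q₂, hq₂0, hq₂t, hq₂⟩ := clt_lower hY hind hident hL2 h0 hv
    (show (-2 : ℝ) < -1 by norm_num)
  set v := variance (Y 0) P with hvdef
  have hvpos : 0 < v := lt_of_le_of_ne (variance_nonneg _ _) (Ne.symm hv)
  have hvar : ∀ i, variance (Y i) P = v := fun i => (hident i).variance_eq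
  set q := min q₁ q₂ with hq
  have hq0 : q ≠ 0 := (lt_min (pos_iff_ne_zero.2 hq₁0) (pos_iff_ne_zero.2 hq₂0)).ne'
  have hqt : q ≠ ⊤ := ne_top_of_le_ne_top hq₁t (min_le_left _ _)
  have hqh : q / 2 ≠ 0 := (ENNReal.half_pos hq0).ne'
  have hqht : q / 2 ≠ ⊤ := ne_top_of_lt (ENNReal.half_lt_self hq0 hqt)
  -- choose R large
  have hqr : 0 < (q / 2).toReal := ENNReal.toReal_pos hqh hqht
  obtain ⟨R, hR2, hRq⟩ : ∃ R : ℝ, 2 ≤ R ∧ v / (R ^ 2 * e) ≤ (q / 2).toReal := by
    refine ⟨max 2 (v / (e * (q / 2).toReal)), le_max_left _ _, ?_⟩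
    set R := max 2 (v / (e * (q / 2).toReal)) with hRdef
    have h1 : 2 ≤ R := le_max_left _ _
    have h2 : v / (e * (q / 2).toReal) ≤ R := le_max_right _ _
    rw [div_le_iff₀ (by positivity)] at h2
    rw [div_le_iff₀ (by positivity)]
    have h3 : R ≤ R ^ 2 := by nlinarith
    have h4 : 0 ≤ e * (q / 2).toReal := by positivity
    nlinarith
  have hRpos : 0 < R := by linarith
  refine ⟨1, R, q / 2, one_pos, by linarith, hqh, ?_⟩
  filter_upwards [hq₁, hq₂, eventually_gt_atTop 0] with B hB₁ hB₂ hB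
  have hBr : (0 : ℝ) < B := by exact_mod_cast hB
  have hsq : (0 : ℝ) < √B := Real.sqrt_pos.2 hBr
  have hcount := prob_count hY hind hL2 h0 hvpos.le hvar hB hRpos he
  have hcount' : P {ω | e * B < (((Finset.range B).filter
      (fun n => R * √B < |psum (fun i => Y i ω) n|)).card : ℝ)} ≤ q / 2 := by
    refine hcount.trans ?_
    rw [← ENNReal.ofReal_toReal hqht]
    exact ENNReal.ofReal_le_ofReal hRq
  have key : ∀ {A S C : Set Ω}, q ≤ P A → P C ≤ q / 2 → A \ C ⊆ S → q / 2 ≤ P S := by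
    intro A S C h1 h2 h3
    have h4 : P A ≤ P S + P C := by
      have : A ⊆ S ∪ C := by
        intro ω hω
        by_cases hc : ω ∈ C
        · exact Or.inr hc
        · exact Or.inl (h3 ⟨hω, hc⟩)
      exact (measure_mono this).trans (measure_union_le _ _)
    have h5 : q / 2 + q / 2 ≤ P S + q / 2 := by
      rw [ENNReal.add_halves]
      exact (h1.trans h4).trans (by gcongr)
    exact (ENNReal.add_le_add_iff_right hqht).1 h5
  constructor
  · refine key ((min_le_left _ _).trans hB₁) hcount' ?_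
    rintro ω ⟨⟨h1, h2⟩, h3⟩
    have h3' : ¬ (e * B < (((Finset.range B).filter
      (fun n => R * √B < |psum (fun i => Y i ω) n|)).card : ℝ)) := h3
    rw [inv_mul_eq_div, lt_div_iff₀ hsq] at h1
    rw [inv_mul_eq_div, div_lt_iff₀ hsq] at h2
    refine ⟨by linarith, by nlinarith, not_lt.1 h3'⟩
  · refine key ((min_le_right _ _).trans hB₂) hcount' ?_
    rintro ω ⟨⟨h1, h2⟩, h3⟩
    have h3' : ¬ (e * B < (((Finset.range B).filter
      (fun n => R * √B < |psum (fun i => Y i ω) n|)).card : ℝ)) := h3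
    rw [inv_mul_eq_div, lt_div_iff₀ hsq] at h1
    rw [inv_mul_eq_div, div_lt_iff₀ hsq] at h2
    refine ⟨by linarith, by nlinarith, not_lt.1 h3'⟩

end

end Pool.Agent.K47485c
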