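import Mathlib

/-!
# A fine partition of the circle into `Q` arcs
-/

namespace Pool.Agent.K47485c

open MeasureTheory Set

lemma floor_lt_of_circle (Q : ℕ) (hQ : 0 < Q) (x : UnitAddCircle) :
    ⌊(Q : ℝ) * (AddCircle.measurableEquivIco (1 : ℝ) 0 x : ℝ)⌋₊ < Q := by
  have h := (AddCircle.measurableEquivIco (1 : ℝ) 0 x).2
  have hub := h.2
  have hQ' : (0 : ℝ) < Q := by exact_mod_cast hQ
  rw [Nat.floor_lt (mul_nonneg hQ'.le h.1)]
  nlinarith [h.2]

/-- The index of the arc `[k/Q, (k+1)/Q)` containing `x`. -/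
noncomputable def cell (Q : ℕ) (hQ : 0 < Q) (x : UnitAddCircle) : Fin Q :=
  ⟨⌊(Q : ℝ) * (AddCircle.measurableEquivIco (1 : ℝ) 0 x : ℝ)⌋₊, floor_lt_of_circle Q hQ x⟩

lemma measurable_cell (Q : ℕ) (hQ : 0 < Q) : Measurable (cell Q hQ) := by
  refine measurable_to_countable' (fun k => ?_)
  have : cell Q hQ ⁻¹' {k} =
      (fun x : UnitAddCircle => ⌊(Q : ℝ) * (AddCircle.measurableEquivIco (1 : ℝ) 0 x : ℝ)⌋₊) ⁻¹'
        {(k : ℕ)} := by
    ext x
    simp [cell, Fin.ext_iff]
  rw [this]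
  refine MeasurableSet.preimage (measurableSet_singleton _) ?_
  refine Nat.measurable_floor.comp ?_
  exact (measurable_subtype_coe.comp (AddCircle.measurableEquivIco (1 : ℝ) 0).measurable).const_mul _

lemma norm_sub_le_of_cell_eq (Q : ℕ) (hQ : 0 < Q) {x y : UnitAddCircle}
    (h : cell Q hQ x = cell Q hQ y) : ‖x - y‖ ≤ 1 / Q := by
  have hQ' : (0 : ℝ) < Q := by exact_mod_cast hQ
  set a : ℝ := (AddCircle.measurableEquivIco (1 : ℝ) 0 x : ℝ) with ha
  set b : ℝ := (AddCircle.measurableEquivIco (1 : ℝ) 0 y : ℝ) with hb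
  have hxa : ((a : ℝ) : UnitAddCircle) = x := AddCircle.coe_equivIco
  have hyb : ((b : ℝ) : UnitAddCircle) = y := AddCircle.coe_equivIco
  have hax := (AddCircle.measurableEquivIco (1 : ℝ) 0 x).2
  have hbx := (AddCircle.measurableEquivIco (1 : ℝ) 0 y).2
  have ha0 : 0 ≤ a := hax.1
  have hb0 : 0 ≤ b := hbx.1
  have hfl : ⌊(Q : ℝ) * a⌋₊ = ⌊(Q : ℝ) * b⌋₊ := by
    have := congrArg Fin.val h
    simpa [cell, ha, hb] using this
  have h1 := Nat.floor_le (mul_nonneg hQ'.le ha0)
  have h2 := Nat.lt_floor_add_one ((Q : ℝ) * a)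
  have h3 := Nat.floor_le (mul_nonneg hQ'.le hb0)
  have h4 := Nat.lt_floor_add_one ((Q : ℝ) * b)
  rw [hfl] at h1 h2
  have hab : |a - b| ≤ 1 / Q := by
    rw [abs_le]
    constructor
    · rw [neg_le, ← sub_nonneg]
      have : 0 ≤ (1 / (Q : ℝ) - -(a - b)) := by
        have h5 : (Q : ℝ) * b - (Q : ℝ) * a ≤ 1 := by linarith
        have h6 : b - a ≤ 1 / Q := by
          rw [le_div_iff₀ hQ']
          nlinarith
        linarith
      exact this
    · rw [le_div_iff₀ hQ']
      nlinarith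
  rw [← hxa, ← hyb, ← AddCircle.coe_sub]
  refine le_trans ?_ hab
  rw [← Real.norm_eq_abs]
  exact QuotientAddGroup.norm_mk_le_norm

/-- The set of points where two different integer multiples lie in the same arc is small. -/
lemma volume_cell_eq_le (Q : ℕ) (hQ : 0 < Q) {m n : ℕ} (hmn : m ≠ n) :
    volume {x : UnitAddCircle | cell Q hQ (m • x) = cell Q hQ (n • x)} ≤
      ENNReal.ofReal (2 / Q) := by
  have hsub : {x : UnitAddCircle | cell Q hQ (m • x) = cell Q hQ (n • x)} ⊆
      (fun x : UnitAddCircle => ((m : ℤ) - (n : ℤ)) • x) ⁻¹' (Metric.closedBall 0 (1 / Q)) := by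
    intro x hx
    have := norm_sub_le_of_cell_eq Q hQ hx
    simp only [mem_preimage, Metric.mem_closedBall, dist_zero_right]
    rw [sub_zsmul, natCast_zsmul, natCast_zsmul, ← sub_eq_add_neg]
    exact this
  have hne : ((m : ℤ) - (n : ℤ)) ≠ 0 := by
    intro h
    apply hmn
    have : (m : ℤ) = n := by linarith
    exact_mod_cast this
  have hmp := Measure.measurePreserving_zsmul (volume : Measure UnitAddCircle) hne
  calc volume {x : UnitAddCircle | cell Q hQ (m • x) = cell Q hQ (n • x)}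
      ≤ volume ((fun x : UnitAddCircle => ((m : ℤ) - (n : ℤ)) • x) ⁻¹'
          (Metric.closedBall 0 (1 / Q))) := measure_mono hsub
    _ = volume (Metric.closedBall (0 : UnitAddCircle) (1 / Q)) :=
        hmp.measure_preimage measurableSet_closedBall.nullMeasurableSet
    _ = ENNReal.ofReal (min 1 (2 * (1 / Q))) := AddCircle.volume_closedBall (T := 1) _
    _ ≤ ENNReal.ofReal (2 / Q) := by
        apply ENNReal.ofReal_le_ofReal
        refine (min_le_right _ _).trans (le_of_eq ?_)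
        ring

end Pool.Agent.K47485c
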