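import Pool.Agent.K47485c.Scales
import Pool.Agent.K47485c.Assemble

/-!
# Random products of 2 and 3: almost surely strong sweeping out
-/

namespace Pool.Agent.K47485c

open MeasureTheory ProbabilityTheory Set Filter Topology

section

variable {Ω : Type*} [MeasurableSpace Ω] {P : Measure Ω} [IsProbabilityMeasure P]
  {p : ℝ} {om : ℕ → Ω → ℕ}

lemma law_eq (hp0 : 0 < p) (hp1 : p < 1) (hmeas : ∀ n, Measurable (om n))
    (h2 : ∀ n, P {ω | om n ω = 2} = ENNReal.ofReal p)
    (h3 : ∀ n, P {ω | om n ω = 3} = ENNReal.ofReal (1 - p)) (i : ℕ) :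
    P.map (om i) = ENNReal.ofReal p • Measure.dirac 2 + ENNReal.ofReal (1 - p) • Measure.dirac 3 := by
  have hm2 : MeasurableSet {ω | om i ω = 2} := hmeas i (measurableSet_singleton 2)
  have hm3 : MeasurableSet {ω | om i ω = 3} := hmeas i (measurableSet_singleton 3)
  rw [Measure.ext_iff_singleton]
  intro k
  rw [Measure.map_apply (hmeas i) (measurableSet_singleton k)]
  by_cases hk2 : k = 2
  · subst hk2
    have h4 : P (om i ⁻¹' {2}) = ENNReal.ofReal p := h2 i
    rw [h4]
    simp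
  by_cases hk3 : k = 3
  · subst hk3
    have h4 : P (om i ⁻¹' {3}) = ENNReal.ofReal (1 - p) := h3 i
    rw [h4]
    simp
  have hk : P (om i ⁻¹' {k}) = 0 := by
    have hd1 : Disjoint {ω | om i ω = 2} {ω | om i ω = 3} := by
      rw [Set.disjoint_left]
      intro ω h h'
      have h4 : om i ω = 2 := h
      have h5 : om i ω = 3 := h'
      omega
    have hd2 : Disjoint ({ω | om i ω = 2} ∪ {ω | om i ω = 3}) (om i ⁻¹' {k}) := by
      rw [Set.disjoint_left]
      intro ω h h'
      have h6 : om i ω = k := h'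
      rcases h with h | h
      · have h4 : om i ω = 2 := h
        omega
      · have h4 : om i ω = 3 := h
        omega
    have hu := measure_union (μ := P) hd2 (hmeas i (measurableSet_singleton k))
    rw [measure_union hd1 hm3, h2, h3, ← ENNReal.ofReal_add hp0.le (by linarith)] at hu
    have h1 : P (({ω | om i ω = 2} ∪ {ω | om i ω = 3}) ∪ (om i ⁻¹' {k})) ≤ 1 := prob_le_one
    rw [hu] at h1
    have h7 : p + (1 - p) = 1 := by ring
    rw [h7, ENNReal.ofReal_one] at h1
    by_contra hne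
    have h8 : (1 : ENNReal) < 1 + P (om i ⁻¹' {k}) := ENNReal.lt_add_right (by simp) hne
    exact absurd h1 (not_le.2 h8)
  rw [hk]
  simp [Ne.symm hk2, Ne.symm hk3]

lemma ae_mem (hp0 : 0 < p) (hp1 : p < 1) (hmeas : ∀ n, Measurable (om n))
    (h2 : ∀ n, P {ω | om n ω = 2} = ENNReal.ofReal p)
    (h3 : ∀ n, P {ω | om n ω = 3} = ENNReal.ofReal (1 - p)) :
    ∀ᵐ ω ∂P, ∀ i, om i ω = 2 ∨ om i ω = 3 := by
  rw [ae_all_iff]
  intro i
  have h : P.map (om i) {k | ¬ (k = 2 ∨ k = 3)} = 0 := by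
    rw [law_eq hp0 hp1 hmeas h2 h3 i]
    simp
  rw [Measure.map_apply (hmeas i) (Set.to_countable _).measurableSet] at h
  exact h

lemma ae_goodScale (hp0 : 0 < p) (hp1 : p < 1) (hmeas : ∀ n, Measurable (om n))
    (hind : iIndepFun om P)
    (h2 : ∀ n, P {ω | om n ω = 2} = ENNReal.ofReal p)
    (h3 : ∀ n, P {ω | om n ω = 3} = ENNReal.ofReal (1 - p)) {M : ℕ} (m k : ℕ) :
    ∀ᵐ ω ∂P, GoodScale p (fun i => om i ω) M (1 / (m + 1)) k := by
  set Y : ℕ → Ω → ℝ := fun i ω => stepOf p (om i ω) with hYdef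
  have hstep : Measurable (stepOf p) := measurable_of_countable _
  have hY : ∀ i, Measurable (Y i) := fun i => hstep.comp (hmeas i)
  have hindY : iIndepFun Y P := hind.comp (fun _ => stepOf p) (fun _ => hstep)
  have hident : ∀ i, IdentDistrib (Y i) (Y 0) P P := by
    intro i
    have : IdentDistrib (om i) (om 0) P P :=
      ⟨(hmeas i).aemeasurable, (hmeas 0).aemeasurable, by
        rw [law_eq hp0 hp1 hmeas h2 h3 i, law_eq hp0 hp1 hmeas h2 h3 0]⟩
    exact this.comp hstep
  have hbound : ∀ j, |stepOf p j| ≤ 1 := by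
    intro j
    unfold stepOf
    split_ifs
    · rw [abs_le]; constructor <;> linarith
    · rw [abs_le]; constructor <;> linarith
  have hL2 : ∀ i, MemLp (Y i) 2 P := by
    intro i
    exact MemLp.of_bound (hY i).aestronglyMeasurable 1 (ae_of_all _ (fun ω => hbound _))
  have h0 : ∀ i, ∫ ω, Y i ω ∂P = 0 := by
    intro i
    have h4 : ∫ ω, Y i ω ∂P = ∫ j, stepOf p j ∂(P.map (om i)) :=
      (integral_map (hmeas i).aemeasurable hstep.aestronglyMeasurable).symm
    have hint : ∀ (c : ENNReal) (j : ℕ), c ≠ ⊤ → Integrable (stepOf p) (c • Measure.dirac j) := by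
      intro c j hc
      have : IsFiniteMeasure (c • Measure.dirac j) := Measure.smul_finite _ hc
      exact Integrable.of_bound hstep.aestronglyMeasurable 1 (ae_of_all _ (fun ω => hbound _))
    rw [h4, law_eq hp0 hp1 hmeas h2 h3 i,
      integral_add_measure (hint _ _ ENNReal.ofReal_ne_top) (hint _ _ ENNReal.ofReal_ne_top),
      integral_smul_measure, integral_smul_measure, integral_dirac, integral_dirac,
      ENNReal.toReal_ofReal hp0.le, ENNReal.toReal_ofReal (by linarith)]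
    simp [stepOf]
    ring
  have hv : variance (Y 0) P ≠ 0 := by
    intro h
    have h5 := ae_eq_integral_of_variance_eq_zero (hL2 0) h
    rw [h0 0] at h5
    have h6 : ∀ᵐ ω ∂P, False := by
      filter_upwards [h5] with ω hω
      have h7 : stepOf p (om 0 ω) = 0 := hω
      unfold stepOf at h7
      split_ifs at h7 <;> linarith
    rw [ae_iff] at h6
    simp at h6
  set η : ℝ := 1 / ((m : ℝ) + 1) with hη
  have hηpos : 0 < η := by positivity
  obtain ⟨r, R, q, hr, hrR, hq0, hq⟩ := block_lemma hY hindY hident hL2 h0 hv (e := η / 2)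
    (by positivity)
  obtain ⟨B₁, hB₁⟩ := eventually_atTop.1 hq
  obtain ⟨T, hT⟩ := exists_nat_ge (6 * M * R / r)
  rw [div_le_iff₀ hr] at hT
  set A : ℕ := 2 * (m + 1) with hA
  set b₀ : ℕ := B₁ + k + 1 with hb₀
  have hq' : ∀ B : ℕ, b₀ ≤ B → q ≤ P {ω | BlockOK B (√B) r R (η / 2) 1 (fun i => Y i ω)} ∧
      q ≤ P {ω | BlockOK B (√B) r R (η / 2) (-1) (fun i => Y i ω)} :=
    fun B hB => hB₁ B (by omega)
  have hctrl := ae_exists_ctrl (K := Kseq A T M) (b₀ := b₀) hY hindY hident
    (fun j => target A T R (√((scaleStart (Kseq A T M) b₀ j + b₀ : ℕ) : ℝ))) hq0 hq'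
  filter_upwards [hctrl] with ω hω
  obtain ⟨j, hj⟩ := hω
  have hBpos : 0 < scaleStart (Kseq A T M) b₀ j + b₀ := by omega
  refine goodScale_of_controlled (n₀ := scaleStart (Kseq A T M) b₀ j)
    (B := scaleStart (Kseq A T M) b₀ j + b₀)
    (D := √((scaleStart (Kseq A T M) b₀ j + b₀ : ℕ) : ℝ)) (A := A) (T := T) (r := r) (R := R)
    (e := η / 2) hBpos (Nat.le_add_right _ _) ?_ hr hrR hT ?_ ?_ ?_ (by omega) hj
  · exact Real.sqrt_pos.2 (by exact_mod_cast hBpos)
  · rw [hA, hη]
    push_cast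
    rw [mul_assoc, mul_one_div, div_self (by positivity)]
    norm_num
  · linarith
  · positivity

theorem main (hp0 : 0 < p) (hp1 : p < 1) (hmeas : ∀ n, Measurable (om n))
    (hind : iIndepFun om P)
    (h2 : ∀ n, P {ω | om n ω = 2} = ENNReal.ofReal p)
    (h3 : ∀ n, P {ω | om n ω = 3} = ENNReal.ofReal (1 - p)) :
    ∀ᵐ ω ∂P, ∀ ε : ℝ, 0 < ε → ∃ E : Set UnitAddCircle, MeasurableSet E ∧
      volume E ≤ ENNReal.ofReal ε ∧
      ∀ᵐ x : UnitAddCircle,
        limsup (fun N => avg (prodSeq (fun i => om i ω)) (E.indicator 1) N x) atTop = 1 := by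
  have hall : ∀ᵐ ω ∂P, ∀ M m k : ℕ, GoodScale p (fun i => om i ω) M (1 / (m + 1)) k := by
    rw [ae_all_iff]; intro M
    rw [ae_all_iff]; intro m
    rw [ae_all_iff]; intro k
    exact ae_goodScale hp0 hp1 hmeas hind h2 h3 m k
  filter_upwards [hall, ae_mem hp0 hp1 hmeas h2 h3] with ω h4 h5 ε hε
  exact sweeping_of_goodScale h5 (fun M _ m k => h4 M m k) hε

end

end Pool.Agent.K47485c
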