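import Mathlib

/-!
# Uniformly random labels: the position of the least label is uniform
-/

namespace Pool.Agent.K47485c

open Finset

/-- The permutations of `Fin Q` for which the cell of `v` has the least label among the cells
of the indices in `W`. -/
noncomputable def minPerms {ι : Type*} (Q : ℕ) (W : Finset ι) (f : ι → Fin Q) (v : ι) :
    Finset (Equiv.Perm (Fin Q)) := by
  classical
  exact univ.filter (fun σ => ∀ u ∈ W, σ (f v) ≤ σ (f u))

lemma mem_minPerms {ι : Type*} {Q : ℕ} {W : Finset ι} {f : ι → Fin Q} {v : ι}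
    {σ : Equiv.Perm (Fin Q)} : σ ∈ minPerms Q W f v ↔ ∀ u ∈ W, σ (f v) ≤ σ (f u) := by
  classical
  simp [minPerms]

lemma card_minPerms_le {ι : Type*} {Q : ℕ} {W : Finset ι} {f : ι → Fin Q}
    (hf : Set.InjOn f W) {v v' : ι} (hv : v ∈ W) (hv' : v' ∈ W) :
    (minPerms Q W f v).card ≤ (minPerms Q W f v').card := by
  classical
  refine Finset.card_le_card_of_injOn (fun σ => σ * Equiv.swap (f v) (f v')) ?_ ?_
  · intro σ hσ
    have hσ' := mem_minPerms.1 (by simpa using hσ)
    rw [Finset.mem_coe, mem_minPerms]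
    intro u hu
    simp only [Equiv.Perm.coe_mul, Function.comp_apply, Equiv.swap_apply_right]
    by_cases h1 : u = v
    · subst h1
      simpa using hσ' v' hv'
    · by_cases h2 : u = v'
      · subst h2
        simp
      · have e1 : f u ≠ f v := fun h => h1 (hf hu hv h)
        have e2 : f u ≠ f v' := fun h => h2 (hf hu hv' h)
        rw [Equiv.swap_apply_of_ne_of_ne e1 e2]
        exact hσ' u hu
  · intro σ _ τ _ h
    simpa using h

lemma card_minPerms_eq {ι : Type*} {Q : ℕ} {W : Finset ι} {f : ι → Fin Q}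
    (hf : Set.InjOn f W) {v v' : ι} (hv : v ∈ W) (hv' : v' ∈ W) :
    (minPerms Q W f v).card = (minPerms Q W f v').card :=
  le_antisymm (card_minPerms_le hf hv hv') (card_minPerms_le hf hv' hv)

lemma sum_card_minPerms {ι : Type*} {Q : ℕ} {W : Finset ι} {f : ι → Fin Q}
    (hf : Set.InjOn f W) (hW : W.Nonempty) :
    ∑ v ∈ W, (minPerms Q W f v).card = Nat.factorial Q := by
  classical
  have hdisj : (W : Set ι).PairwiseDisjoint (minPerms Q W f) := by
    intro v hv v' hv' hne
    rw [Function.onFun, Finset.disjoint_left]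
    intro σ h1 h2
    rw [mem_minPerms] at h1 h2
    have := le_antisymm (h1 v' hv') (h2 v hv)
    exact hne (hf hv hv' (σ.injective this))
  rw [← Finset.card_biUnion hdisj]
  have : W.biUnion (minPerms Q W f) = univ := by
    ext σ
    simp only [mem_biUnion, mem_univ, iff_true]
    obtain ⟨v, hv, hmin⟩ := Finset.exists_min_image W (fun u => σ (f u)) hW
    exact ⟨v, hv, mem_minPerms.2 hmin⟩
  rw [this, Finset.card_univ, Fintype.card_perm, Fintype.card_fin]

lemma card_mul_card_minPerms {ι : Type*} {Q : ℕ} {W : Finset ι} {f : ι → Fin Q}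
    (hf : Set.InjOn f W) {v : ι} (hv : v ∈ W) :
    W.card * (minPerms Q W f v).card = Nat.factorial Q := by
  rw [← sum_card_minPerms hf ⟨v, hv⟩]
  rw [Finset.sum_congr rfl (fun u hu => card_minPerms_eq hf hu hv)]
  simp

/-- The number of labellings for which the least label over `W` is not attained in `C`. -/
lemma card_bad_perms_mul {ι : Type*} [DecidableEq ι] {Q : ℕ} {W C : Finset ι} {f : ι → Fin Q}
    (hf : Set.InjOn f W) (hCW : C ⊆ W)
    (B : Finset (Equiv.Perm (Fin Q)))
    (hB : ∀ σ ∈ B, ¬ ∃ v ∈ C, ∀ u ∈ W, σ (f v) ≤ σ (f u)) :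
    W.card * B.card ≤ (W.card - C.card) * Nat.factorial Q := by
  classical
  by_cases hW : W.Nonempty
  · have hsub : B ⊆ (W \ C).biUnion (minPerms Q W f) := by
      intro σ hσ
      obtain ⟨v, hv, hmin⟩ := Finset.exists_min_image W (fun u => σ (f u)) hW
      rw [mem_biUnion]
      refine ⟨v, ?_, mem_minPerms.2 hmin⟩
      rw [mem_sdiff]
      exact ⟨hv, fun hC => hB σ hσ ⟨v, hC, hmin⟩⟩
    have h1 : B.card ≤ ∑ v ∈ W \ C, (minPerms Q W f v).card :=
      (Finset.card_le_card hsub).trans Finset.card_biUnion_le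
    calc W.card * B.card ≤ W.card * ∑ v ∈ W \ C, (minPerms Q W f v).card :=
          Nat.mul_le_mul_left _ h1
      _ = ∑ v ∈ W \ C, W.card * (minPerms Q W f v).card := by rw [Finset.mul_sum]
      _ = ∑ v ∈ W \ C, Nat.factorial Q := by
          refine Finset.sum_congr rfl (fun v hv => ?_)
          exact card_mul_card_minPerms hf (Finset.mem_sdiff.1 hv).1
      _ = (W.card - C.card) * Nat.factorial Q := by
          rw [Finset.sum_const, smul_eq_mul, Finset.card_sdiff_of_subset hCW]
  · rw [Finset.not_nonempty_iff_eq_empty] at hW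
    subst hW
    simp

end Pool.Agent.K47485c
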