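import Pool.Agent.K47485c.Perm
import Pool.Agent.K47485c.Cell

/-!
# A Rokhlin-type lemma for the action of `x ↦ 2x`, `x ↦ 3x` on the circle
-/

namespace Pool.Agent.K47485c

open MeasureTheory Set

/-- The multiplier `2^a 3^b`. -/
def mult (v : ℕ × ℕ) : ℕ := 2 ^ v.1 * 3 ^ v.2

lemma mult_add (u v : ℕ × ℕ) : mult (u + v) = mult u * mult v := by
  simp only [mult, Prod.fst_add, Prod.snd_add, pow_add]
  ring

lemma mult_injective : Function.Injective mult := by
  intro u v h
  have h2 : (mult u).factorization 2 = (mult v).factorization 2 := by rw [h]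
  have h3 : (mult u).factorization 3 = (mult v).factorization 3 := by rw [h]
  have e (w : ℕ × ℕ) : (mult w).factorization 2 = w.1 ∧ (mult w).factorization 3 = w.2 := by
    have hp2 : Nat.Prime 2 := Nat.prime_two
    have hp3 : Nat.Prime 3 := Nat.prime_three
    rw [mult, Nat.factorization_mul (by positivity) (by positivity), hp2.factorization_pow,
      hp3.factorization_pow]
    constructor <;> simp
  rw [(e u).1, (e v).1] at h2
  rw [(e u).2, (e v).2] at h3
  exact Prod.ext h2 h3

/-- The window `[0,L) × [0,L)`. -/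
def box (L : ℕ) : Finset (ℕ × ℕ) := Finset.range L ×ˢ Finset.range L

lemma mem_box {L : ℕ} {v : ℕ × ℕ} : v ∈ box L ↔ v.1 < L ∧ v.2 < L := by
  simp [box]

/-- The label seen at position `v` from the point `x`. -/
noncomputable def lab (Q : ℕ) (hQ : 0 < Q) (σ : Equiv.Perm (Fin Q)) (x : UnitAddCircle)
    (v : ℕ × ℕ) : Fin Q :=
  σ (cell Q hQ (mult v • x))

/-- The position of the least label in the window `[0,L)²` (the sum of all such positions, if
the least label is attained several times). -/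
noncomputable def vstar (Q : ℕ) (hQ : 0 < Q) (L : ℕ) (σ : Equiv.Perm (Fin Q))
    (x : UnitAddCircle) : ℕ × ℕ := by
  classical
  exact ∑ v ∈ box L, if (∀ u ∈ box L, lab Q hQ σ x v ≤ lab Q hQ σ x u) then v else 0

lemma measurable_cell_smul (Q : ℕ) (hQ : 0 < Q) (m : ℕ) :
    Measurable (fun x : UnitAddCircle => cell Q hQ (m • x)) :=
  (measurable_cell Q hQ).comp (measurable_const_smul m)

lemma measurable_lab (Q : ℕ) (hQ : 0 < Q) (σ : Equiv.Perm (Fin Q)) (v : ℕ × ℕ) :
    Measurable (fun x => lab Q hQ σ x v) :=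
  (measurable_of_countable _).comp (measurable_cell_smul Q hQ (mult v))

lemma measurableSet_lab_le (Q : ℕ) (hQ : 0 < Q) (σ : Equiv.Perm (Fin Q)) (u v : ℕ × ℕ) :
    MeasurableSet {x | lab Q hQ σ x v ≤ lab Q hQ σ x u} := by
  have h : Measurable (fun x => (lab Q hQ σ x v, lab Q hQ σ x u)) :=
    (measurable_lab Q hQ σ v).prodMk (measurable_lab Q hQ σ u)
  exact h (Set.to_countable {p : Fin Q × Fin Q | p.1 ≤ p.2}).measurableSet

lemma measurable_vstar (Q : ℕ) (hQ : 0 < Q) (L : ℕ) (σ : Equiv.Perm (Fin Q)) :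
    Measurable (vstar Q hQ L σ) := by
  classical
  unfold vstar
  refine Finset.measurable_fun_sum _ (fun v _ => ?_)
  refine Measurable.ite ?_ measurable_const measurable_const
  have : {x | ∀ u ∈ box L, lab Q hQ σ x v ≤ lab Q hQ σ x u} =
      ⋂ u ∈ box L, {x | lab Q hQ σ x v ≤ lab Q hQ σ x u} := by
    ext x; simp
  rw [this]
  exact Finset.measurableSet_biInter _ (fun u _ => measurableSet_lab_le Q hQ σ u v)

lemma lab_mult_smul (Q : ℕ) (hQ : 0 < Q) (σ : Equiv.Perm (Fin Q)) (x : UnitAddCircle)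
    (s v : ℕ × ℕ) : lab Q hQ σ (mult s • x) v = lab Q hQ σ x (v + s) := by
  unfold lab
  rw [smul_smul, mult_add]

/-- The deterministic part: if labels over the large window are distinct and the least one is
attained in the core, the position map is equivariant. -/
lemma vstar_add (Q : ℕ) (hQ : 0 < Q) (L N : ℕ) (σ : Equiv.Perm (Fin Q)) (x : UnitAddCircle)
    (hinj : Set.InjOn (fun v => cell Q hQ (mult v • x)) (box (L + N)))
    {v₀ : ℕ × ℕ} (hv₀ : v₀ ∈ Finset.Ico N L ×ˢ Finset.Ico N L)
    (hmin : ∀ u ∈ box (L + N), lab Q hQ σ x v₀ ≤ lab Q hQ σ x u)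
    {s : ℕ × ℕ} (hs1 : s.1 ≤ N) (hs2 : s.2 ≤ N) :
    vstar Q hQ L σ (mult s • x) + s = v₀ := by
  classical
  simp only [Finset.mem_product, Finset.mem_Ico] at hv₀
  obtain ⟨⟨h1, h2⟩, h3, h4⟩ := hv₀
  obtain ⟨w, hw⟩ : ∃ w : ℕ × ℕ, w + s = v₀ :=
    ⟨(v₀.1 - s.1, v₀.2 - s.2), by ext <;> simp <;> omega⟩
  have hw1 : w.1 + s.1 = v₀.1 := congrArg Prod.fst hw
  have hw2 : w.2 + s.2 = v₀.2 := congrArg Prod.snd hw
  have hwbox : w ∈ box L := by
    rw [mem_box]; constructor <;> omega
  have hv₀box : v₀ ∈ box (L + N) := by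
    rw [mem_box]; constructor <;> omega
  have key : vstar Q hQ L σ (mult s • x) = w := by
    unfold vstar
    rw [Finset.sum_eq_single_of_mem w hwbox]
    · rw [if_pos]
      intro u hu
      rw [lab_mult_smul, lab_mult_smul, hw]
      apply hmin
      rw [mem_box] at hu ⊢
      simp only [Prod.fst_add, Prod.snd_add]
      constructor <;> omega
    · intro v hv hne
      rw [if_neg]
      intro hall
      have h5 := hall w hwbox
      rw [lab_mult_smul, lab_mult_smul, hw] at h5
      have hvs : v + s ∈ box (L + N) := by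
        rw [mem_box] at hv ⊢
        simp only [Prod.fst_add, Prod.snd_add]
        constructor <;> omega
      have h6 := le_antisymm h5 (hmin _ hvs)
      have h7 : cell Q hQ (mult (v + s) • x) = cell Q hQ (mult v₀ • x) := σ.injective h6
      have h8 : v + s = v₀ := hinj hvs hv₀box h7
      apply hne
      rw [← hw] at h8
      exact add_right_cancel h8
  rw [key, hw]

/-- Points for which two of the cells seen in the window coincide. -/
def collide (Q : ℕ) (hQ : 0 < Q) (K : ℕ) : Set UnitAddCircle :=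
  ⋃ u ∈ box K, ⋃ v ∈ box K, {x | u ≠ v ∧ cell Q hQ (mult u • x) = cell Q hQ (mult v • x)}

lemma measurableSet_collide_aux (Q : ℕ) (hQ : 0 < Q) (u v : ℕ × ℕ) :
    MeasurableSet {x : UnitAddCircle |
      u ≠ v ∧ cell Q hQ (mult u • x) = cell Q hQ (mult v • x)} := by
  by_cases h : u = v
  · simp [h]
  · simp only [ne_eq, h, not_false_eq_true, true_and]
    have h : Measurable (fun x : UnitAddCircle =>
        (cell Q hQ (mult u • x), cell Q hQ (mult v • x))) :=
      (measurable_cell_smul Q hQ _).prodMk (measurable_cell_smul Q hQ _)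
    exact h (Set.to_countable {p : Fin Q × Fin Q | p.1 = p.2}).measurableSet

lemma measurableSet_collide (Q : ℕ) (hQ : 0 < Q) (K : ℕ) :
    MeasurableSet (collide Q hQ K) := by
  unfold collide
  refine Finset.measurableSet_biUnion _ (fun u _ => ?_)
  refine Finset.measurableSet_biUnion _ (fun v _ => ?_)
  exact measurableSet_collide_aux Q hQ u v

lemma volume_collide_le (Q : ℕ) (hQ : 0 < Q) (K : ℕ) :
    volume (collide Q hQ K) ≤ ENNReal.ofReal (K ^ 4 * (2 / Q)) := by
  have hcard : (box K).card = K ^ 2 := by simp [box, sq]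
  calc volume (collide Q hQ K)
      ≤ ∑ u ∈ box K, volume (⋃ v ∈ box K, {x : UnitAddCircle |
          u ≠ v ∧ cell Q hQ (mult u • x) = cell Q hQ (mult v • x)}) :=
        measure_biUnion_finset_le _ _
    _ ≤ ∑ u ∈ box K, ∑ v ∈ box K, volume {x : UnitAddCircle |
          u ≠ v ∧ cell Q hQ (mult u • x) = cell Q hQ (mult v • x)} :=
        Finset.sum_le_sum (fun u _ => measure_biUnion_finset_le _ _)
    _ ≤ ∑ u ∈ box K, ∑ v ∈ box K, ENNReal.ofReal (2 / Q) := by
        refine Finset.sum_le_sum (fun u _ => Finset.sum_le_sum (fun v _ => ?_))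
        by_cases h : u = v
        · simp [h]
        · simp only [ne_eq, h, not_false_eq_true, true_and]
          exact volume_cell_eq_le Q hQ (fun e => h (mult_injective e))
    _ = ENNReal.ofReal (K ^ 4 * (2 / Q)) := by
        simp only [Finset.sum_const, hcard]
        rw [← ENNReal.ofReal_nsmul, ← ENNReal.ofReal_nsmul]
        congr 1
        simp only [nsmul_eq_mul]
        push_cast
        ring

/-- Points outside `collide` for which the least label over the window is not attained in the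
core. -/
def misplaced (Q : ℕ) (hQ : 0 < Q) (L N : ℕ) (σ : Equiv.Perm (Fin Q)) : Set UnitAddCircle :=
  (collide Q hQ (L + N))ᶜ ∩
    (⋃ v ∈ Finset.Ico N L ×ˢ Finset.Ico N L, ⋂ u ∈ box (L + N),
      {x | lab Q hQ σ x v ≤ lab Q hQ σ x u})ᶜ

lemma measurableSet_misplaced (Q : ℕ) (hQ : 0 < Q) (L N : ℕ) (σ : Equiv.Perm (Fin Q)) :
    MeasurableSet (misplaced Q hQ L N σ) := by
  unfold misplaced
  refine (measurableSet_collide _ _ _).compl.inter (MeasurableSet.compl ?_)
  refine Finset.measurableSet_biUnion _ (fun v _ => ?_)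
  refine Finset.measurableSet_biInter _ (fun u _ => ?_)
  exact measurableSet_lab_le Q hQ σ u v

lemma injOn_of_not_mem_collide {Q : ℕ} {hQ : 0 < Q} {K : ℕ} {x : UnitAddCircle}
    (hx : x ∉ collide Q hQ K) : Set.InjOn (fun v => cell Q hQ (mult v • x)) (box K) := by
  intro u hu v hv huv
  by_contra hne
  apply hx
  unfold collide
  simp only [mem_iUnion]
  exact ⟨u, hu, v, hv, hne, huv⟩

lemma sum_volume_misplaced_le (Q : ℕ) (hQ : 0 < Q) (L N : ℕ) (hNL : N ≤ L) (hL : 0 < L) :
    ∑ σ : Equiv.Perm (Fin Q), volume (misplaced Q hQ L N σ) ≤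
      ENNReal.ofReal (4 * N / L * (Nat.factorial Q)) := by
  classical
  have hK : (box (L + N)).card = (L + N) ^ 2 := by simp [box, sq]
  have hC : (Finset.Ico N L ×ˢ Finset.Ico N L).card = (L - N) ^ 2 := by
    simp [Finset.card_product, sq]
  have hsub : Finset.Ico N L ×ˢ Finset.Ico N L ⊆ box (L + N) := by
    intro v hv
    simp only [Finset.mem_product, Finset.mem_Ico] at hv
    rw [mem_box]; constructor <;> omega
  calc ∑ σ : Equiv.Perm (Fin Q), volume (misplaced Q hQ L N σ)
      = ∑ σ : Equiv.Perm (Fin Q), ∫⁻ x, (misplaced Q hQ L N σ).indicator 1 x := by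
        refine Finset.sum_congr rfl (fun σ _ => ?_)
        rw [lintegral_indicator_one (measurableSet_misplaced Q hQ L N σ)]
    _ = ∫⁻ x, ∑ σ : Equiv.Perm (Fin Q), (misplaced Q hQ L N σ).indicator 1 x := by
        rw [lintegral_finsetSum]
        intro σ _
        exact measurable_one.indicator (measurableSet_misplaced Q hQ L N σ)
    _ ≤ ∫⁻ _x : UnitAddCircle, ENNReal.ofReal (4 * N / L * (Nat.factorial Q)) := by
        refine lintegral_mono (fun x => ?_)
        set B : Finset (Equiv.Perm (Fin Q)) :=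
          Finset.univ.filter (fun σ => x ∈ misplaced Q hQ L N σ) with hBdef
        have hsum : ∑ σ : Equiv.Perm (Fin Q), (misplaced Q hQ L N σ).indicator
            (1 : UnitAddCircle → ENNReal) x = (B.card : ENNReal) := by
          rw [hBdef, Finset.card_filter]
          push_cast
          refine Finset.sum_congr rfl (fun σ _ => ?_)
          by_cases h : x ∈ misplaced Q hQ L N σ <;> simp [h]
        rw [hsum]
        by_cases hx : x ∈ collide Q hQ (L + N)
        · have : B = ∅ := by
            rw [hBdef, Finset.filter_eq_empty_iff]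
            intro σ _ h
            exact h.1 hx
          rw [this]; simp
        · have hinj := injOn_of_not_mem_collide hx
          have hbad := card_bad_perms_mul (Q := Q) (W := box (L + N))
            (C := Finset.Ico N L ×ˢ Finset.Ico N L) (f := fun v => cell Q hQ (mult v • x))
            hinj hsub B (by
              intro σ hσ ⟨v, hv, hmin⟩
              rw [hBdef, Finset.mem_filter] at hσ
              apply hσ.2.2
              simp only [mem_iUnion, mem_iInter]
              exact ⟨v, hv, hmin⟩)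
          rw [hK, hC] at hbad
          have hLN : (0 : ℝ) < ((L : ℝ) + N) ^ 2 := by positivity
          have hLpos : (0 : ℝ) < L := by exact_mod_cast hL
          have hNpos : (0 : ℝ) ≤ N := by positivity
          have hfac : (0 : ℝ) < (Nat.factorial Q : ℝ) := by exact_mod_cast Nat.factorial_pos Q
          have hle : (L - N) ^ 2 ≤ (L + N) ^ 2 := Nat.pow_le_pow_left (by omega) 2
          have hbad' : ((L : ℝ) + N) ^ 2 * (B.card : ℝ) ≤
              (((L : ℝ) + N) ^ 2 - ((L : ℝ) - N) ^ 2) * (Nat.factorial Q : ℝ) := by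
            have := (Nat.cast_le (α := ℝ)).2 hbad
            rw [Nat.cast_mul, Nat.cast_mul, Nat.cast_sub hle] at this
            push_cast [Nat.cast_sub hNL] at this
            exact this
          rw [← ENNReal.ofReal_natCast]
          apply ENNReal.ofReal_le_ofReal
          have h1 : ((L : ℝ) + N) ^ 2 - ((L : ℝ) - N) ^ 2 = 4 * L * N := by ring
          rw [h1] at hbad'
          have h2 : 4 * (N : ℝ) / L * (Nat.factorial Q : ℝ) =
            (4 * N * (Nat.factorial Q : ℝ)) / L := by ring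
          rw [h2, le_div_iff₀ hLpos]
          have h3 : ((L : ℝ) + N) ^ 2 * ((B.card : ℝ) * L) ≤
              ((L : ℝ) + N) ^ 2 * (4 * N * (Nat.factorial Q : ℝ)) := by
            have h4 : ((L : ℝ) + N) ^ 2 * ((B.card : ℝ) * L) ≤
                (4 * L * N * (Nat.factorial Q : ℝ)) * L := by nlinarith
            refine h4.trans ?_
            have h5 : (L : ℝ) ^ 2 ≤ ((L : ℝ) + N) ^ 2 := by nlinarith
            have h6 : 0 ≤ 4 * (N : ℝ) * (Nat.factorial Q : ℝ) := by positivity
            nlinarith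
          exact le_of_mul_le_mul_left h3 hLN
    _ = ENNReal.ofReal (4 * N / L * (Nat.factorial Q)) := by
        simp

/-- **Rokhlin-type lemma.** For every `N` and `ε > 0` there is a measurable position map
`h : 𝕋 → ℕ × ℕ` with `h (2^a 3^b x) + (a, b) = h x` for all `a, b ≤ N`, for all `x` outside a
set of measure at most `ε`. -/
theorem exists_position_map (N : ℕ) {ε : ℝ} (hε : 0 < ε) :
    ∃ h : UnitAddCircle → ℕ × ℕ, Measurable h ∧
      volume {x | ¬ ∀ s : ℕ × ℕ, s.1 ≤ N → s.2 ≤ N → h (mult s • x) + s = h x} ≤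
        ENNReal.ofReal ε := by
  classical
  -- choose the size of the window
  obtain ⟨L, hL⟩ : ∃ L : ℕ, 8 * (N : ℝ) / ε + N + 1 ≤ L := exists_nat_ge _
  have hN0 : (0 : ℝ) ≤ N := by positivity
  have h8 : 0 ≤ 8 * (N : ℝ) / ε := by positivity
  have hNL : N ≤ L := by
    have : (N : ℝ) ≤ L := by linarith
    exact_mod_cast this
  have hL0 : 0 < L := by
    have : (0 : ℝ) < L := by linarith
    exact_mod_cast this
  have hLr : (0 : ℝ) < L := by exact_mod_cast hL0
  have hcore : 4 * (N : ℝ) / L ≤ ε / 2 := by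
    have h9 : 8 * (N : ℝ) / ε ≤ L := by linarith
    rw [div_le_iff₀ hε] at h9
    rw [div_le_iff₀ hLr]
    linarith
  -- choose the number of cells
  obtain ⟨Q, hQ⟩ : ∃ Q : ℕ, 4 * ((L + N : ℕ) : ℝ) ^ 4 / ε + 1 ≤ Q := exists_nat_ge _
  have hLN4 : 0 ≤ 4 * ((L + N : ℕ) : ℝ) ^ 4 / ε := by positivity
  have hQ0 : 0 < Q := by
    have : (0 : ℝ) < Q := by linarith
    exact_mod_cast this
  have hQr : (0 : ℝ) < Q := by exact_mod_cast hQ0
  have hcol : ((L + N : ℕ) : ℝ) ^ 4 * (2 / Q) ≤ ε / 2 := by
    have h9 : 4 * ((L + N : ℕ) : ℝ) ^ 4 / ε ≤ Q := by linarith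
    rw [div_le_iff₀ hε] at h9
    rw [mul_div_assoc', div_le_iff₀ hQr]
    linarith
  -- choose a labelling
  have hsum := sum_volume_misplaced_le Q hQ0 L N hNL hL0
  obtain ⟨σ, -, hσ⟩ : ∃ σ ∈ (Finset.univ : Finset (Equiv.Perm (Fin Q))),
      volume (misplaced Q hQ0 L N σ) ≤ ENNReal.ofReal (4 * N / L) := by
    by_contra hcon
    push Not at hcon
    have hlt := ENNReal.sum_lt_sum_of_nonempty Finset.univ_nonempty hcon
    refine absurd hsum (not_le.2 (lt_of_eq_of_lt ?_ hlt))
    rw [Finset.sum_const, Finset.card_univ, Fintype.card_perm, Fintype.card_fin,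
      ← ENNReal.ofReal_nsmul, nsmul_eq_mul, mul_comm]
  refine ⟨vstar Q hQ0 L σ, measurable_vstar Q hQ0 L σ, ?_⟩
  have hsubset : {x | ¬ ∀ s : ℕ × ℕ, s.1 ≤ N → s.2 ≤ N →
      vstar Q hQ0 L σ (mult s • x) + s = vstar Q hQ0 L σ x} ⊆
      collide Q hQ0 (L + N) ∪ misplaced Q hQ0 L N σ := by
    intro x hx
    by_contra hcon
    rw [mem_union, not_or] at hcon
    apply hx
    have hinj := injOn_of_not_mem_collide hcon.1
    have h1 : x ∈ (⋃ v ∈ Finset.Ico N L ×ˢ Finset.Ico N L, ⋂ u ∈ box (L + N),
        {x | lab Q hQ0 σ x v ≤ lab Q hQ0 σ x u}) := by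
      by_contra h2
      exact hcon.2 ⟨hcon.1, h2⟩
    simp only [mem_iUnion, mem_iInter] at h1
    obtain ⟨v₀, hv₀, hmin⟩ := h1
    have h0 : vstar Q hQ0 L σ x = v₀ := by
      have := vstar_add Q hQ0 L N σ x hinj hv₀ hmin (s := 0) (by simp) (by simp)
      simpa [mult] using this
    intro s hs1 hs2
    rw [h0]
    exact vstar_add Q hQ0 L N σ x hinj hv₀ hmin hs1 hs2
  calc volume {x | ¬ ∀ s : ℕ × ℕ, s.1 ≤ N → s.2 ≤ N →
      vstar Q hQ0 L σ (mult s • x) + s = vstar Q hQ0 L σ x}
      ≤ volume (collide Q hQ0 (L + N) ∪ misplaced Q hQ0 L N σ) := measure_mono hsubset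
    _ ≤ volume (collide Q hQ0 (L + N)) + volume (misplaced Q hQ0 L N σ) := measure_union_le _ _
    _ ≤ ENNReal.ofReal (ε / 2) + ENNReal.ofReal (ε / 2) := by
        refine add_le_add ?_ ?_
        · exact (volume_collide_le Q hQ0 (L + N)).trans (ENNReal.ofReal_le_ofReal hcol)
        · exact hσ.trans (ENNReal.ofReal_le_ofReal hcore)
    _ = ENNReal.ofReal ε := by
        rw [← ENNReal.ofReal_add (by positivity) (by positivity)]
        congr 1
        ring

end Pool.Agent.K47485c
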