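import Pool.Agent.K47485c.Block

/-!
# Almost surely some scale is controlled
-/

namespace Pool.Agent.K47485c

open MeasureTheory ProbabilityTheory Set Filter Topology

section

variable {Ω : Type*} [mΩ : MeasurableSpace Ω] {P : Measure Ω}
  {Y : ℕ → Ω → ℝ}

/-- The past: the sigma-algebra generated by `Y i`, `i < m`. -/
@[reducible] def past (Y : ℕ → Ω → ℝ) (m : ℕ) : MeasurableSpace Ω :=
  ⨆ i ∈ Set.Iio m, MeasurableSpace.comap (Y i) inferInstance

/-- The future: the sigma-algebra generated by `Y i`, `i ≥ m`. -/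
@[reducible] def future (Y : ℕ → Ω → ℝ) (m : ℕ) : MeasurableSpace Ω :=
  ⨆ i ∈ Set.Ici m, MeasurableSpace.comap (Y i) inferInstance

omit mΩ in
lemma past_mono {m n : ℕ} (h : m ≤ n) : past Y m ≤ past Y n := by
  unfold past
  refine iSup₂_le (fun i hi => ?_)
  exact le_iSup₂_of_le (f := fun i (_ : i ∈ Set.Iio n) => MeasurableSpace.comap (Y i) inferInstance)
    i (lt_of_lt_of_le hi h) le_rfl

lemma past_le (hY : ∀ i, Measurable (Y i)) (m : ℕ) : past Y m ≤ mΩ :=
  iSup₂_le (fun i _ => (hY i).comap_le)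

lemma indep_past_future (hY : ∀ i, Measurable (Y i)) (hind : iIndepFun Y P) (m : ℕ) :
    Indep (past Y m) (future Y m) P := by
  refine indep_iSup_of_disjoint (fun i => (hY i).comap_le) hind ?_
  rw [Set.disjoint_left]
  intro i h1 h2
  exact absurd (show i < m from h1) (not_lt.2 (show m ≤ i from h2))

omit mΩ in
lemma measurable_past {m i : ℕ} (h : i < m) : Measurable[past Y m] (Y i) := by
  rw [measurable_iff_comap_le]
  exact le_iSup₂_of_le (f := fun i (_ : i ∈ Set.Iio m) => MeasurableSpace.comap (Y i) inferInstance)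
    i h le_rfl

omit mΩ in
lemma measurable_future {m i : ℕ} (h : m ≤ i) : Measurable[future Y m] (Y i) := by
  rw [measurable_iff_comap_le]
  exact le_iSup₂_of_le (f := fun i (_ : i ∈ Set.Ici m) => MeasurableSpace.comap (Y i) inferInstance)
    i h le_rfl

omit mΩ in
lemma measurable_shift_future (m : ℕ) :
    Measurable[future Y m] (fun ω => shiftBy m (fun i => Y i ω)) := by
  refine @measurable_pi_lambda _ _ _ (future Y m) _ _ (fun i => ?_)
  exact measurable_future (Nat.le_add_right m i)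

omit mΩ in
lemma measurable_psum_shift_past {m n l : ℕ} (h : m + n ≤ l) :
    Measurable[past Y l] (fun ω => psum (shiftBy m (fun i => Y i ω)) n) := by
  unfold psum shiftBy
  refine Finset.measurable_fun_sum (m := past Y l) _ (fun i hi => ?_)
  rw [Finset.mem_range] at hi
  exact measurable_past (by omega)

lemma measurableSet_blockOK (B : ℕ) (D r R e sg : ℝ) :
    MeasurableSet {z : ℕ → ℝ | BlockOK B D r R e sg z} := by
  unfold BlockOK
  have h1 : Measurable (fun z : ℕ → ℝ => sg * psum z B) := (measurable_psum B).const_mul sg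
  refine (measurableSet_le measurable_const h1).inter
    ((measurableSet_le h1 measurable_const).inter ?_)
  have h2 : Measurable (fun z : ℕ → ℝ => (((Finset.range B).filter
      (fun n => R * D < |psum z n|)).card : ℝ)) := by
    have : (fun z : ℕ → ℝ => (((Finset.range B).filter
      (fun n => R * D < |psum z n|)).card : ℝ)) =
      fun z => ∑ n ∈ Finset.range B, if R * D < |psum z n| then (1 : ℝ) else 0 := by
      ext z
      rw [Finset.card_filter]
      push_cast
      rfl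
    rw [this]
    refine Finset.measurable_fun_sum _ (fun n _ => ?_)
    refine Measurable.ite ?_ measurable_const measurable_const
    exact measurableSet_lt measurable_const (measurable_psum n).abs
  exact measurableSet_le h2 measurable_const

omit mΩ in
lemma measurableSet_past_blockOK {m B l : ℕ} (h : m + B ≤ l) (D r R e sg : ℝ) :
    MeasurableSet[past Y l] {ω | BlockOK B D r R e sg (shiftBy m (fun i => Y i ω))} := by
  unfold BlockOK
  have h1 : Measurable[past Y l] (fun ω => sg * psum (shiftBy m (fun i => Y i ω)) B) :=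
    (measurable_psum_shift_past h).const_mul sg
  refine MeasurableSet.inter (m := past Y l) (measurableSet_le measurable_const h1)
    (MeasurableSet.inter (m := past Y l) (measurableSet_le h1 measurable_const) ?_)
  have h2 : Measurable[past Y l] (fun ω => (((Finset.range B).filter
      (fun n => R * D < |psum (shiftBy m (fun i => Y i ω)) n|)).card : ℝ)) := by
    have : (fun ω => (((Finset.range B).filter
      (fun n => R * D < |psum (shiftBy m (fun i => Y i ω)) n|)).card : ℝ)) =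
      fun ω => ∑ n ∈ Finset.range B,
        if R * D < |psum (shiftBy m (fun i => Y i ω)) n| then (1 : ℝ) else 0 := by
      ext ω
      rw [Finset.card_filter]
      push_cast
      rfl
    rw [this]
    refine Finset.measurable_fun_sum (m := past Y l) _ (fun n hn => ?_)
    rw [Finset.mem_range] at hn
    refine Measurable.ite (m := past Y l) ?_ measurable_const measurable_const
    have h3 : Measurable[past Y l] (fun ω => |psum (shiftBy m (fun i => Y i ω)) n|) :=
      measurable_norm.comp (measurable_psum_shift_past (by omega))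
    exact measurableSet_lt measurable_const h3
  exact measurableSet_le h2 measurable_const

/-- The event that the first `K` blocks after `n₀` are controlled. -/
def ctrl (Y : ℕ → Ω → ℝ) (n₀ B : ℕ) (D r R e : ℝ) (t : ℕ → ℝ) (K : ℕ) : Set Ω :=
  {ω | Controlled n₀ B D r R e t K (fun i => Y i ω)}

omit mΩ in
lemma ctrl_zero (n₀ B : ℕ) (D r R e : ℝ) (t : ℕ → ℝ) : ctrl Y n₀ B D r R e t 0 = univ := by
  ext ω
  simp [ctrl, Controlled]

omit mΩ in
lemma ctrl_succ (n₀ B : ℕ) (D r R e : ℝ) (t : ℕ → ℝ) (K : ℕ) :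
    ctrl Y n₀ B D r R e t (K + 1) = ctrl Y n₀ B D r R e t K ∩
      (({ω | psum (shiftBy n₀ (fun i => Y i ω)) (K * B) ≤ t K} ∩
        {ω | BlockOK B D r R e 1 (shiftBy (n₀ + K * B) (fun i => Y i ω))}) ∪
      ({ω | psum (shiftBy n₀ (fun i => Y i ω)) (K * B) ≤ t K}ᶜ ∩
        {ω | BlockOK B D r R e (-1) (shiftBy (n₀ + K * B) (fun i => Y i ω))})) := by
  ext ω
  constructor
  · intro h
    refine ⟨fun k hk => h k (by omega), ?_⟩
    have hK := h K (by omega)
    by_cases hle : psum (shiftBy n₀ (fun i => Y i ω)) (K * B) ≤ t K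
    · exact Or.inl ⟨hle, hK.1 hle⟩
    · exact Or.inr ⟨hle, hK.2 (not_le.1 hle)⟩
  · rintro ⟨h1, h2⟩ k hk
    rcases Nat.lt_succ_iff_lt_or_eq.1 hk with h3 | h3
    · exact h1 k h3
    · subst h3
      rcases h2 with ⟨h4, h5⟩ | ⟨h4, h5⟩
      · exact ⟨fun _ => h5, fun h6 => absurd h6 (not_lt.2 h4)⟩
      · exact ⟨fun h6 => absurd h6 h4, fun _ => h5⟩

omit mΩ in
lemma measurableSet_ctrl (n₀ B : ℕ) (D r R e : ℝ) (t : ℕ → ℝ) (K : ℕ) :
    MeasurableSet[past Y (n₀ + K * B)] (ctrl Y n₀ B D r R e t K) := by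
  induction K with
  | zero =>
    rw [ctrl_zero]
    exact @MeasurableSet.univ _ (past Y _)
  | succ K ih =>
    rw [ctrl_succ]
    have e1 : n₀ + (K + 1) * B = n₀ + K * B + B := by ring
    have hm : MeasurableSet[past Y (n₀ + (K + 1) * B)]
        {ω | psum (shiftBy n₀ (fun i => Y i ω)) (K * B) ≤ t K} :=
      measurableSet_le (measurable_psum_shift_past (by omega)) measurable_const
    refine MeasurableSet.inter (m := past Y (n₀ + (K + 1) * B))
      (past_mono (by omega) _ ih) ?_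
    refine MeasurableSet.union (m := past Y (n₀ + (K + 1) * B)) ?_ ?_
    · exact MeasurableSet.inter (m := past Y (n₀ + (K + 1) * B)) hm
        (measurableSet_past_blockOK (by omega) _ _ _ _ _)
    · exact MeasurableSet.inter (m := past Y (n₀ + (K + 1) * B))
        (MeasurableSet.compl (m := past Y (n₀ + (K + 1) * B)) hm)
        (measurableSet_past_blockOK (by omega) _ _ _ _ _)

/-- The law of the shifted sequence. -/
lemma prob_shift [IsProbabilityMeasure P] (hY : ∀ i, Measurable (Y i)) (hind : iIndepFun Y P)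
    (hident : ∀ i, IdentDistrib (Y i) (Y 0) P P) (m : ℕ) {𝒜 : Set (ℕ → ℝ)}
    (h𝒜 : MeasurableSet 𝒜) :
    P {ω | shiftBy m (fun i => Y i ω) ∈ 𝒜} = P {ω | (fun i => Y i ω) ∈ 𝒜} := by
  have h1 : P.map (fun ω i => Y (m + i) ω) = P.map (fun ω i => Y i ω) := by
    have hind' : iIndepFun (fun i => Y (m + i)) P := hind.precomp (add_right_injective m)
    rw [hind'.map_fun_eq_infinitePi_map (fun i => hY (m + i)),
      hind.map_fun_eq_infinitePi_map hY]
    congr 1
    funext i
    rw [(hident (m + i)).map_eq, (hident i).map_eq]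
  have hm1 : Measurable (fun ω i => Y (m + i) ω) := measurable_pi_lambda _ (fun i => hY (m + i))
  have hm2 : Measurable (fun ω i => Y i ω) := measurable_pi_lambda _ hY
  have h2 : P.map (fun ω i => Y (m + i) ω) 𝒜 = P.map (fun ω i => Y i ω) 𝒜 := by rw [h1]
  rw [Measure.map_apply hm1 h𝒜, Measure.map_apply hm2 h𝒜] at h2
  exact h2

/-- Conditionally on the past, the walk is controlled with probability at least `q ^ K`. -/
lemma prob_ctrl_ge [IsProbabilityMeasure P] (hY : ∀ i, Measurable (Y i)) (hind : iIndepFun Y P)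
    (hident : ∀ i, IdentDistrib (Y i) (Y 0) P P)
    {n₀ B : ℕ} {D r R e : ℝ} {t : ℕ → ℝ} {q : ENNReal}
    (hq1 : q ≤ P {ω | BlockOK B D r R e 1 (fun i => Y i ω)})
    (hq2 : q ≤ P {ω | BlockOK B D r R e (-1) (fun i => Y i ω)})
    {A : Set Ω} (hA : MeasurableSet[past Y n₀] A) (K : ℕ) :
    q ^ K * P A ≤ P (A ∩ ctrl Y n₀ B D r R e t K) := by
  induction K with
  | zero => simp [ctrl_zero]
  | succ K ih =>
    set m := n₀ + K * B with hm
    set C := ctrl Y n₀ B D r R e t K with hC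
    set V : Set Ω := {ω | psum (shiftBy n₀ (fun i => Y i ω)) (K * B) ≤ t K} with hV
    set U₁ : Set Ω := {ω | BlockOK B D r R e 1 (shiftBy m (fun i => Y i ω))} with hU₁
    set U₂ : Set Ω := {ω | BlockOK B D r R e (-1) (shiftBy m (fun i => Y i ω))} with hU₂
    have hVm : MeasurableSet[past Y m] V :=
      measurableSet_le (measurable_psum_shift_past (by omega)) measurable_const
    have hCm : MeasurableSet[past Y m] C := measurableSet_ctrl _ _ _ _ _ _ _ _
    have hAm : MeasurableSet[past Y m] A := past_mono (by omega) _ hA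
    have hU₁m : MeasurableSet[future Y m] U₁ :=
      (measurable_shift_future m) (measurableSet_blockOK B D r R e 1)
    have hU₂m : MeasurableSet[future Y m] U₂ :=
      (measurable_shift_future m) (measurableSet_blockOK B D r R e (-1))
    have hind' := indep_past_future hY hind m
    rw [Indep_iff] at hind'
    have hAC : MeasurableSet[past Y m] (A ∩ C) := MeasurableSet.inter (m := past Y m) hAm hCm
    have hA1 : MeasurableSet[past Y m] (A ∩ C ∩ V) :=
      MeasurableSet.inter (m := past Y m) hAC hVm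
    have hA2 : MeasurableSet[past Y m] (A ∩ C ∩ Vᶜ) :=
      MeasurableSet.inter (m := past Y m) hAC (MeasurableSet.compl (m := past Y m) hVm)
    have hP1 : P (A ∩ C ∩ V ∩ U₁) = P (A ∩ C ∩ V) * P U₁ := hind' _ _ hA1 hU₁m
    have hP2 : P (A ∩ C ∩ Vᶜ ∩ U₂) = P (A ∩ C ∩ Vᶜ) * P U₂ := hind' _ _ hA2 hU₂m
    have hqU₁ : q ≤ P U₁ := by
      have := prob_shift hY hind hident m (measurableSet_blockOK B D r R e 1)
      exact hq1.trans (le_of_eq this.symm)
    have hqU₂ : q ≤ P U₂ := by
      have := prob_shift hY hind hident m (measurableSet_blockOK B D r R e (-1))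
      exact hq2.trans (le_of_eq this.symm)
    have hsub : (A ∩ C ∩ V ∩ U₁) ∪ (A ∩ C ∩ Vᶜ ∩ U₂) ⊆ A ∩ ctrl Y n₀ B D r R e t (K + 1) := by
      rw [ctrl_succ]
      rintro ω (⟨⟨⟨h1, h2⟩, h3⟩, h4⟩ | ⟨⟨⟨h1, h2⟩, h3⟩, h4⟩)
      · exact ⟨h1, h2, Or.inl ⟨h3, h4⟩⟩
      · exact ⟨h1, h2, Or.inr ⟨h3, h4⟩⟩
    have hdisj : Disjoint (A ∩ C ∩ V ∩ U₁) (A ∩ C ∩ Vᶜ ∩ U₂) := by
      rw [Set.disjoint_left]
      rintro ω ⟨⟨_, h3⟩, _⟩ ⟨⟨_, h3'⟩, _⟩
      exact h3' h3
    have hfut : future Y m ≤ mΩ := iSup₂_le (fun i _ => (hY i).comap_le)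
    have hmeas2 : MeasurableSet (A ∩ C ∩ Vᶜ ∩ U₂) :=
      (past_le hY m _ hA2).inter (hfut _ hU₂m)
    have hsplit : P (A ∩ C) = P (A ∩ C ∩ V) + P (A ∩ C ∩ Vᶜ) := by
      rw [← Set.sdiff_eq]
      exact (measure_inter_add_sdiff _ (past_le hY m _ hVm)).symm
    calc q ^ (K + 1) * P A = q * (q ^ K * P A) := by ring
      _ ≤ q * P (A ∩ C) := by gcongr
      _ = P (A ∩ C ∩ V) * q + P (A ∩ C ∩ Vᶜ) * q := by rw [hsplit]; ring
      _ ≤ P (A ∩ C ∩ V) * P U₁ + P (A ∩ C ∩ Vᶜ) * P U₂ := by gcongr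
      _ = P (A ∩ C ∩ V ∩ U₁) + P (A ∩ C ∩ Vᶜ ∩ U₂) := by rw [hP1, hP2]
      _ = P ((A ∩ C ∩ V ∩ U₁) ∪ (A ∩ C ∩ Vᶜ ∩ U₂)) := (measure_union hdisj hmeas2).symm
      _ ≤ P (A ∩ ctrl Y n₀ B D r R e t (K + 1)) := measure_mono hsub

/-- The starting times of the scales. -/
def scaleStart (K b₀ : ℕ) : ℕ → ℕ
  | 0 => 0
  | j + 1 => scaleStart K b₀ j + K * (scaleStart K b₀ j + b₀)

/-- The event that none of the first `J` scales is controlled. -/
def fails (Y : ℕ → Ω → ℝ) (K b₀ : ℕ) (r R e : ℝ) (t : ℕ → ℕ → ℝ) (J : ℕ) : Set Ω :=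
  ⋂ j ∈ Finset.range J, (ctrl Y (scaleStart K b₀ j) (scaleStart K b₀ j + b₀)
    (√((scaleStart K b₀ j + b₀ : ℕ) : ℝ)) r R e (t j) K)ᶜ

omit mΩ in
lemma measurableSet_fails (K b₀ : ℕ) (r R e : ℝ) (t : ℕ → ℕ → ℝ) (J : ℕ) :
    MeasurableSet[past Y (scaleStart K b₀ J)] (fails Y K b₀ r R e t J) := by
  induction J with
  | zero => simp [fails]
  | succ J ih =>
    have : fails Y K b₀ r R e t (J + 1) = fails Y K b₀ r R e t J ∩
        (ctrl Y (scaleStart K b₀ J) (scaleStart K b₀ J + b₀)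
          (√((scaleStart K b₀ J + b₀ : ℕ) : ℝ)) r R e (t J) K)ᶜ := by
      unfold fails
      ext ω
      simp only [mem_iInter, Finset.mem_range, mem_inter_iff]
      constructor
      · intro h
        exact ⟨fun i hi => h i (by omega), h J (by omega)⟩
      · rintro ⟨h1, h2⟩ i hi
        rcases Nat.lt_succ_iff_lt_or_eq.1 hi with h3 | h3
        · exact h1 i h3
        · subst h3; exact h2
    rw [this]
    refine MeasurableSet.inter (m := past Y (scaleStart K b₀ (J + 1)))
      (past_mono (Nat.le_add_right _ _) _ ih)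
      (MeasurableSet.compl (m := past Y (scaleStart K b₀ (J + 1))) ?_)
    exact measurableSet_ctrl _ _ _ _ _ _ _ _

lemma prob_fails_le [IsProbabilityMeasure P] (hY : ∀ i, Measurable (Y i)) (hind : iIndepFun Y P)
    (hident : ∀ i, IdentDistrib (Y i) (Y 0) P P)
    {K b₀ : ℕ} {r R e : ℝ} {t : ℕ → ℕ → ℝ} {q : ENNReal}
    (hq : ∀ B : ℕ, b₀ ≤ B → q ≤ P {ω | BlockOK B (√B) r R e 1 (fun i => Y i ω)} ∧
      q ≤ P {ω | BlockOK B (√B) r R e (-1) (fun i => Y i ω)}) (J : ℕ) :
    P (fails Y K b₀ r R e t J) ≤ (1 - q ^ K) ^ J := by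
  induction J with
  | zero => simp [fails]
  | succ J ih =>
    set Z := fails Y K b₀ r R e t J with hZ
    set C := ctrl Y (scaleStart K b₀ J) (scaleStart K b₀ J + b₀)
          (√((scaleStart K b₀ J + b₀ : ℕ) : ℝ)) r R e (t J) K with hC
    have hZm : MeasurableSet[past Y (scaleStart K b₀ J)] Z := measurableSet_fails _ _ _ _ _ _ _
    have hCm : MeasurableSet C := past_le hY _ _ (measurableSet_ctrl _ _ _ _ _ _ _ _)
    have hsub : fails Y K b₀ r R e t (J + 1) ⊆ Z \ C := by
      intro ω hω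
      unfold fails at hω
      simp only [mem_iInter, Finset.mem_range] at hω
      refine ⟨?_, hω J (by omega)⟩
      simp only [hZ, fails, mem_iInter, Finset.mem_range]
      exact fun i hi => hω i (by omega)
    have hge := prob_ctrl_ge hY hind hident (n₀ := scaleStart K b₀ J)
      (B := scaleStart K b₀ J + b₀) (D := √((scaleStart K b₀ J + b₀ : ℕ) : ℝ)) (r := r) (R := R)
      (e := e) (t := t J) (q := q) (hq _ (Nat.le_add_left _ _)).1 (hq _ (Nat.le_add_left _ _)).2
      hZm K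
    have hadd : P (Z ∩ C) + P (Z \ C) = P Z := measure_inter_add_sdiff _ hCm
    have hfin : P (Z ∩ C) ≠ ⊤ := measure_ne_top _ _
    have hdiff : P (Z \ C) = P Z - P (Z ∩ C) := by
      rw [← hadd, ENNReal.add_sub_cancel_left hfin]
    calc P (fails Y K b₀ r R e t (J + 1)) ≤ P (Z \ C) := measure_mono hsub
      _ = P Z - P (Z ∩ C) := hdiff
      _ ≤ P Z - q ^ K * P Z := tsub_le_tsub_left hge _
      _ = (1 - q ^ K) * P Z := by
          rw [ENNReal.sub_mul (fun _ _ => measure_ne_top _ _), one_mul]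
      _ ≤ (1 - q ^ K) * (1 - q ^ K) ^ J := by gcongr
      _ = (1 - q ^ K) ^ (J + 1) := by ring

/-- Almost surely some scale is controlled. -/
theorem ae_exists_ctrl [IsProbabilityMeasure P] (hY : ∀ i, Measurable (Y i))
    (hind : iIndepFun Y P) (hident : ∀ i, IdentDistrib (Y i) (Y 0) P P)
    {K b₀ : ℕ} {r R e : ℝ} (t : ℕ → ℕ → ℝ) {q : ENNReal} (hq0 : q ≠ 0)
    (hq : ∀ B : ℕ, b₀ ≤ B → q ≤ P {ω | BlockOK B (√B) r R e 1 (fun i => Y i ω)} ∧
      q ≤ P {ω | BlockOK B (√B) r R e (-1) (fun i => Y i ω)}) :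
    ∀ᵐ ω ∂P, ∃ j : ℕ, Controlled (scaleStart K b₀ j) (scaleStart K b₀ j + b₀)
          (√((scaleStart K b₀ j + b₀ : ℕ) : ℝ)) r R e (t j) K (fun i => Y i ω) := by
  rw [ae_iff]
  have hsub : ∀ J, {ω | ¬ ∃ j : ℕ, Controlled (scaleStart K b₀ j) (scaleStart K b₀ j + b₀)
          (√((scaleStart K b₀ j + b₀ : ℕ) : ℝ)) r R e (t j) K (fun i => Y i ω)} ⊆
      fails Y K b₀ r R e t J := by
    intro J ω hω
    simp only [fails, mem_iInter, Finset.mem_range]
    intro j _ hj
    exact hω ⟨j, hj⟩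
  have hle : ∀ J : ℕ, P {ω | ¬ ∃ j : ℕ, Controlled (scaleStart K b₀ j) (scaleStart K b₀ j + b₀)
          (√((scaleStart K b₀ j + b₀ : ℕ) : ℝ)) r R e (t j) K (fun i => Y i ω)} ≤
      (1 - q ^ K) ^ J := fun J =>
    (measure_mono (hsub J)).trans (prob_fails_le hY hind hident hq J)
  have hlt : 1 - q ^ K < 1 := ENNReal.sub_lt_self (by simp) (by simp) (pow_ne_zero K hq0)
  have htend : Tendsto (fun J : ℕ => (1 - q ^ K) ^ J) atTop (𝓝 0) :=
    ENNReal.tendsto_pow_atTop_nhds_zero_of_lt_one hlt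
  exact le_antisymm (ge_of_tendsto' htend hle) bot_le

end

end Pool.Agent.K47485c
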