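import Pool.Agent.K47485c.Sweep

/-!
# Steering: a controlled walk has a good scale
-/

namespace Pool.Agent.K47485c

open Set

/-- Partial sums. -/
def psum (y : ℕ → ℝ) (n : ℕ) : ℝ := ∑ i ∈ Finset.range n, y i

/-- The sequence seen from time `m`. -/
def shiftBy (m : ℕ) (y : ℕ → ℝ) : ℕ → ℝ := fun i => y (m + i)

lemma psum_add (y : ℕ → ℝ) (m n : ℕ) :
    psum y (m + n) = psum y m + psum (shiftBy m y) n := by
  simp only [psum, shiftBy, Finset.sum_range_add]

/-- The good behaviour of a block of length `B`: the displacement, multiplied by the sign `sg`,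
is between `r D` and `R D`, and the walk is within `R D` of its start for most of the time. -/
def BlockOK (B : ℕ) (D r R e : ℝ) (sg : ℝ) (z : ℕ → ℝ) : Prop :=
  r * D ≤ sg * psum z B ∧ sg * psum z B ≤ R * D ∧
    (((Finset.range B).filter (fun n => R * D < |psum z n|)).card : ℝ) ≤ e * B

/-- The block numbers at which the stages end. -/
def Kseq (A T : ℕ) : ℕ → ℕ
  | 0 => 0
  | i + 1 => A * (Kseq A T i + T + 2)

lemma Kseq_lt {A T : ℕ} (hA : 0 < A) (i : ℕ) : Kseq A T i < Kseq A T (i + 1) := by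
  show Kseq A T i < A * (Kseq A T i + T + 2)
  nlinarith [Nat.zero_le (Kseq A T i), Nat.zero_le T]

lemma Kseq_strictMono {A T : ℕ} (hA : 0 < A) : StrictMono (Kseq A T) :=
  strictMono_nat_of_lt_succ (Kseq_lt hA)

/-- The stage to which block number `k` belongs. -/
def stage (A T : ℕ) (k : ℕ) : ℕ := Nat.findGreatest (fun i => Kseq A T i ≤ k) k

lemma stage_eq {A T : ℕ} (hA : 0 < A) {i k : ℕ} (h1 : Kseq A T i ≤ k) (h2 : k < Kseq A T (i + 1)) :
    stage A T k = i := by
  unfold stage
  rw [Nat.findGreatest_eq_iff]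
  have hmono := Kseq_strictMono (T := T) hA
  refine ⟨(hmono.id_le i).trans h1, fun _ => h1, fun n hn _ hle => ?_⟩
  have : Kseq A T (i + 1) ≤ Kseq A T n := hmono.monotone hn
  omega

lemma stage_lt {A T : ℕ} (hA : 0 < A) {M k : ℕ} (h : k < Kseq A T M) : stage A T k < M := by
  unfold stage
  by_contra hcon
  push Not at hcon
  have hmono := Kseq_strictMono (T := T) hA
  rcases Nat.eq_zero_or_pos (Nat.findGreatest (fun i => Kseq A T i ≤ k) k) with h0 | h0
  · rw [h0] at hcon
    have : M = 0 := by omega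
    subst this
    simp [Kseq] at h
  · have h3 := Nat.findGreatest_of_ne_zero (P := fun i => Kseq A T i ≤ k) (n := k) rfl h0.ne'
    have h4 : Kseq A T M ≤ Kseq A T (Nat.findGreatest (fun i => Kseq A T i ≤ k) k) :=
      hmono.monotone hcon
    have h5 : Kseq A T (Nat.findGreatest (fun i => Kseq A T i ≤ k) k) ≤ k := h3
    omega

/-- The target of block `k`. -/
noncomputable def target (A T : ℕ) (R D : ℝ) (k : ℕ) : ℝ := (6 * (stage A T k : ℝ) + 3) * (R * D)

/-- The walk is controlled: in each of the first `K` blocks after time `n₀`, it moves towards the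
target `t k`. -/
def Controlled (n₀ B : ℕ) (D r R e : ℝ) (t : ℕ → ℝ) (K : ℕ) (y : ℕ → ℝ) : Prop :=
  ∀ k < K, (psum (shiftBy n₀ y) (k * B) ≤ t k →
      BlockOK B D r R e 1 (shiftBy (n₀ + k * B) y)) ∧
    (t k < psum (shiftBy n₀ y) (k * B) →
      BlockOK B D r R e (-1) (shiftBy (n₀ + k * B) y))

lemma psum_block (n₀ B k : ℕ) (y : ℕ → ℝ) (n : ℕ) :
    psum (shiftBy n₀ y) (k * B + n) =
      psum (shiftBy n₀ y) (k * B) + psum (shiftBy (n₀ + k * B) y) n := by
  rw [psum_add]
  congr 1
  unfold psum shiftBy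
  simp only [add_assoc]

section

variable {n₀ B : ℕ} {D r R e : ℝ} {t : ℕ → ℝ} {K : ℕ} {y : ℕ → ℝ}

lemma pos_step (hc : Controlled n₀ B D r R e t K y) {k : ℕ} (hk : k < K) :
    (psum (shiftBy n₀ y) (k * B) ≤ t k ∧
      r * D ≤ psum (shiftBy n₀ y) ((k + 1) * B) - psum (shiftBy n₀ y) (k * B) ∧
      psum (shiftBy n₀ y) ((k + 1) * B) - psum (shiftBy n₀ y) (k * B) ≤ R * D) ∨
    (t k < psum (shiftBy n₀ y) (k * B) ∧
      r * D ≤ psum (shiftBy n₀ y) (k * B) - psum (shiftBy n₀ y) ((k + 1) * B) ∧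
      psum (shiftBy n₀ y) (k * B) - psum (shiftBy n₀ y) ((k + 1) * B) ≤ R * D) := by
  have h := hc k hk
  have e1 : (k + 1) * B = k * B + B := by ring
  rw [e1, psum_block]
  rcases le_or_gt (psum (shiftBy n₀ y) (k * B)) (t k) with h1 | h1
  · left
    obtain ⟨h2, h3, -⟩ := h.1 h1
    refine ⟨h1, by linarith, by linarith⟩
  · right
    obtain ⟨h2, h3, -⟩ := h.2 h1
    refine ⟨h1, by linarith, by linarith⟩

lemma pos_bounds (hc : Controlled n₀ B D r R e t K y) (hr : 0 ≤ r * D)
    {U : ℝ} (h0 : 0 ≤ U) (ht1 : ∀ k < K, R * D ≤ t k) (ht2 : ∀ k < K, t k + R * D ≤ U) :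
    ∀ k ≤ K, 0 ≤ psum (shiftBy n₀ y) (k * B) ∧ psum (shiftBy n₀ y) (k * B) ≤ U := by
  intro k
  induction k with
  | zero => intro _; simp [psum, h0]
  | succ k ih =>
    intro hk
    obtain ⟨ih1, ih2⟩ := ih (by omega)
    have hkK : k < K := by omega
    have := ht1 k hkK
    have := ht2 k hkK
    rcases pos_step hc hkK with ⟨h1, h2, h3⟩ | ⟨h1, h2, h3⟩
    · constructor <;> linarith
    · constructor <;> linarith

/-- Contraction towards a constant target. -/
lemma pos_contract (hc : Controlled n₀ B D r R e t K y) (hr : 0 ≤ r * D)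
    {k₀ : ℕ} {c : ℝ} :
    ∀ j : ℕ, k₀ + j ≤ K → (∀ k, k₀ ≤ k → k < k₀ + j → t k = c) →
      |psum (shiftBy n₀ y) ((k₀ + j) * B) - c| ≤
        max (|psum (shiftBy n₀ y) (k₀ * B) - c| - j * (r * D)) (R * D) := by
  intro j
  induction j with
  | zero => intro _ _; simp
  | succ j ih =>
    intro hK ht
    have ih' := ih (by omega) (fun k h1 h2 => ht k h1 (by omega))
    have htj : t (k₀ + j) = c := ht _ (by omega) (by omega)
    have hstep := pos_step hc (k := k₀ + j) (by omega)
    rw [htj] at hstep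
    have e1 : k₀ + (j + 1) = k₀ + j + 1 := by ring
    rw [e1]
    set a := psum (shiftBy n₀ y) ((k₀ + j) * B) with ha
    set b := psum (shiftBy n₀ y) ((k₀ + j + 1) * B) with hb
    set X := |psum (shiftBy n₀ y) (k₀ * B) - c| with hX
    have hmain : |b - c| ≤ max (|a - c| - r * D) (R * D) := by
      rcases hstep with ⟨h1, h2, h3⟩ | ⟨h1, h2, h3⟩
      · rw [abs_of_nonpos (by linarith : a - c ≤ 0)]
        rcases le_or_gt b c with h4 | h4
        · rw [abs_of_nonpos (by linarith)]
          exact le_max_of_le_left (by linarith)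
        · rw [abs_of_pos (by linarith)]
          exact le_max_of_le_right (by linarith)
      · rw [abs_of_pos (by linarith : 0 < a - c)]
        rcases le_or_gt c b with h4 | h4
        · rw [abs_of_nonneg (by linarith)]
          exact le_max_of_le_left (by linarith)
        · rw [abs_of_neg (by linarith)]
          exact le_max_of_le_right (by linarith)
    refine hmain.trans ?_
    push_cast
    rcases le_max_iff.1 ih' with h5 | h5
    · refine max_le_max (by linarith) le_rfl
    · refine max_le ?_ (le_max_right _ _)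
      refine le_max_of_le_right (by linarith)

end

lemma walk_eq_psum (p : ℝ) (om : ℕ → ℕ) (n : ℕ) :
    walk p om n = psum (fun i => stepOf p (om i)) n := rfl

lemma final_arith {n₀ B k₁ K' A e η : ℝ} (hn₀r : n₀ ≤ B) (hn₀0 : 0 ≤ n₀) (hB1 : 1 ≤ B)
    (hK'r : K' = A * (k₁ + 2)) (hk₁0 : 0 ≤ k₁) (hA : 2 ≤ A * η) (he : 2 * e ≤ η) (hη : 0 ≤ η) :
    (n₀ + k₁ * B) + 1 + K' * (e * B) ≤ η * (n₀ + K' * B) := by
  have h1 : (n₀ + k₁ * B) + 1 ≤ (k₁ + 2) * B := by nlinarith
  have hkB : 0 ≤ (k₁ + 2) * B := by positivity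
  have h2 : 2 * ((k₁ + 2) * B) ≤ η * (K' * B) := by
    rw [hK'r]
    have h3 : 2 * ((k₁ + 2) * B) ≤ (A * η) * ((k₁ + 2) * B) :=
      mul_le_mul_of_nonneg_right hA hkB
    linarith
  have hK0 : 0 ≤ K' * B := by
    have hη0 : η ≠ 0 := by
      intro h; rw [h] at hA; simp at hA; linarith
    have hηpos : 0 < η := lt_of_le_of_ne hη (Ne.symm hη0)
    have h4 : 0 ≤ η * (K' * B) := by linarith
    exact nonneg_of_mul_nonneg_right h4 hηpos
  have h3 : 2 * (K' * (e * B)) ≤ η * (K' * B) := by
    have h4 : (2 * e) * (K' * B) ≤ η * (K' * B) := mul_le_mul_of_nonneg_right he hK0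
    linarith
  have h4 : 0 ≤ η * n₀ := by positivity
  have h5 : η * (n₀ + K' * B) = η * n₀ + η * (K' * B) := by ring
  rw [h5]
  linarith

set_option maxHeartbeats 1000000 in
theorem goodScale_of_controlled {p : ℝ} {om : ℕ → ℕ} {M A T : ℕ} {r R η e D : ℝ} {n₀ B k₀ : ℕ}
    (hB : 0 < B) (hn₀ : n₀ ≤ B) (hD : 0 < D) (hr : 0 < r) (hrR : r ≤ R)
    (hT : 6 * M * R ≤ T * r) (hA : 2 ≤ A * η) (he : 2 * e ≤ η) (he0 : 0 ≤ e) (hk₀ : k₀ ≤ B)
    (hc : Controlled n₀ B D r R e (target A T R D) (Kseq A T M) (fun i => stepOf p (om i))) :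
    GoodScale p om M η k₀ := by
  classical
  set y : ℕ → ℝ := fun i => stepOf p (om i) with hy
  have hη : 0 ≤ η := by linarith
  have hA0 : 0 < A := by
    rcases Nat.eq_zero_or_pos A with h | h
    · subst h; simp at hA; linarith
    · exact h
  have hR : 0 < R := by linarith
  have hRD : 0 < R * D := by positivity
  have hrD : 0 < r * D := by positivity
  have hrRD : r * D ≤ R * D := by nlinarith
  have hmono := Kseq_strictMono (T := T) hA0
  have hBr : (0 : ℝ) < B := by exact_mod_cast hB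
  refine ⟨walk p om n₀, 6 * (R * D), fun i => n₀ + Kseq A T (i + 1) * B, by positivity, ?_⟩
  intro i hi
  have hK1 : 1 ≤ Kseq A T (i + 1) := by
    have := Kseq_lt (T := T) hA0 i
    omega
  have hKB : B ≤ Kseq A T (i + 1) * B := Nat.le_mul_of_pos_left _ (by omega)
  refine ⟨by show k₀ ≤ n₀ + Kseq A T (i + 1) * B; omega,
    by show 0 < n₀ + Kseq A T (i + 1) * B; omega, ?_⟩
  set K' := Kseq A T (i + 1) with hK'
  set k₁ := Kseq A T i + T with hk₁
  have hK'eq : K' = A * (Kseq A T i + T + 2) := rfl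
  have hK'M : K' ≤ Kseq A T M := hmono.monotone hi
  -- bounds for the position
  have htar : ∀ k < Kseq A T M, R * D ≤ target A T R D k ∧
      target A T R D k + R * D ≤ 6 * M * (R * D) := by
    intro k hk
    have hs := stage_lt (T := T) hA0 hk
    have hs' : (stage A T k : ℝ) + 1 ≤ M := by exact_mod_cast hs
    have hs0 : (0 : ℝ) ≤ stage A T k := by positivity
    unfold target
    constructor
    · nlinarith
    · nlinarith
  have hpos := pos_bounds (U := 6 * M * (R * D)) hc hrD.le (by positivity)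
    (fun k hk => (htar k hk).1) (fun k hk => (htar k hk).2)
  -- in the plateau the position is within `R D` of the centre
  set c : ℝ := (6 * (i : ℝ) + 3) * (R * D) with hcdef
  have hplateau : ∀ k, k₁ ≤ k → k < K' → |psum (shiftBy n₀ y) (k * B) - c| ≤ R * D := by
    intro k h1 h2
    obtain ⟨j, hj⟩ : ∃ j, k = Kseq A T i + j := ⟨k - Kseq A T i, by omega⟩
    subst hj
    have hcon := pos_contract (K := Kseq A T M) (k₀ := Kseq A T i) (c := c) hc hrD.le j
      (by omega) (fun k' h3 h4 => by
        unfold target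
        rw [stage_eq hA0 h3 (by omega)])
    refine hcon.trans (max_le ?_ le_rfl)
    have hiK : Kseq A T i ≤ Kseq A T M := hmono.monotone hi.le
    obtain ⟨hp1, hp2⟩ := hpos (Kseq A T i) hiK
    have hjT : (T : ℝ) ≤ j := by
      have : T ≤ j := by omega
      exact_mod_cast this
    have hiM : (i : ℝ) + 1 ≤ M := by exact_mod_cast hi
    have hi0 : (0 : ℝ) ≤ i := by positivity
    have habs : |psum (shiftBy n₀ y) (Kseq A T i * B) - c| ≤ 6 * M * (R * D) := by
      rw [abs_le]
      constructor <;> nlinarith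
    have h5 : 6 * M * (R * D) ≤ T * (r * D) := by nlinarith
    nlinarith
  -- times at which the walk can be out of the window
  set P : ℕ → Prop := fun n => walk p om n₀ + i * (6 * (R * D)) ≤ walk p om n ∧
    walk p om n < walk p om n₀ + (i + 1) * (6 * (R * D)) with hP
  have hcover : (Finset.Icc 1 (n₀ + K' * B)).filter (fun n => ¬ P n) ⊆
      (Finset.range (n₀ + k₁ * B)) ∪ {n₀ + K' * B} ∪
      (Finset.Ico k₁ K').biUnion (fun k => ((Finset.range B).filter
        (fun n => R * D < |psum (shiftBy (n₀ + k * B) y) n|)).image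
          (fun n => n₀ + (k * B + n))) := by
    intro n hn
    rw [Finset.mem_filter, Finset.mem_Icc] at hn
    obtain ⟨⟨hn1, hn2⟩, hn3⟩ := hn
    rw [Finset.mem_union, Finset.mem_union]
    by_cases h1 : n < n₀ + k₁ * B
    · left; left; exact Finset.mem_range.2 h1
    by_cases h2 : n = n₀ + K' * B
    · left; right; exact Finset.mem_singleton.2 h2
    right
    push Not at h1
    have h3 : n < n₀ + K' * B := lt_of_le_of_ne hn2 h2
    have hn₀n : n₀ ≤ n := by
      have : n₀ ≤ n₀ + k₁ * B := Nat.le_add_right _ _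
      omega
    obtain ⟨d, hd⟩ : ∃ d, n = n₀ + d := ⟨n - n₀, by omega⟩
    subst hd
    have hdB : d / B * B + d % B = d := by rw [mul_comm]; exact Nat.div_add_mod d B
    have hk1 : k₁ ≤ d / B := by
      rw [Nat.le_div_iff_mul_le hB]; omega
    have hk2 : d / B < K' := by
      rw [Nat.div_lt_iff_lt_mul hB]; omega
    rw [Finset.mem_biUnion]
    refine ⟨d / B, Finset.mem_Ico.2 ⟨hk1, hk2⟩, ?_⟩
    rw [Finset.mem_image]
    refine ⟨d % B, ?_, by rw [hdB]⟩
    rw [Finset.mem_filter, Finset.mem_range]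
    refine ⟨Nat.mod_lt _ hB, ?_⟩
    by_contra h4
    push Not at h4
    apply hn3
    have h5 := hplateau (d / B) hk1 hk2
    have h6 : walk p om (n₀ + d) = walk p om n₀ + psum (shiftBy n₀ y) (d / B * B) +
        psum (shiftBy (n₀ + d / B * B) y) (d % B) := by
      rw [walk_eq_psum, walk_eq_psum, psum_add]
      have := psum_block n₀ B (d / B) y (d % B)
      rw [hdB] at this
      rw [this]
      ring
    rw [abs_le] at h4 h5
    simp only [hP]
    rw [h6]
    constructor
    · nlinarith
    · nlinarith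
  have hcard : (((Finset.Icc 1 (n₀ + K' * B)).filter (fun n => ¬ P n)).card : ℝ) ≤
      (n₀ + k₁ * B : ℝ) + 1 + K' * (e * B) := by
    have h1 := Finset.card_le_card hcover
    have h2 := Finset.card_union_le ((Finset.range (n₀ + k₁ * B)) ∪ {n₀ + K' * B})
      ((Finset.Ico k₁ K').biUnion (fun k => ((Finset.range B).filter
        (fun n => R * D < |psum (shiftBy (n₀ + k * B) y) n|)).image
          (fun n => n₀ + (k * B + n))))
    have h3 := Finset.card_union_le (Finset.range (n₀ + k₁ * B)) {n₀ + K' * B}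
    rw [Finset.card_range, Finset.card_singleton] at h3
    have h4 : (((Finset.Ico k₁ K').biUnion (fun k => ((Finset.range B).filter
        (fun n => R * D < |psum (shiftBy (n₀ + k * B) y) n|)).image
          (fun n => n₀ + (k * B + n)))).card : ℝ) ≤ K' * (e * B) := by
      calc (((Finset.Ico k₁ K').biUnion (fun k => ((Finset.range B).filter
        (fun n => R * D < |psum (shiftBy (n₀ + k * B) y) n|)).image
          (fun n => n₀ + (k * B + n)))).card : ℝ)
          ≤ ∑ k ∈ Finset.Ico k₁ K', ((((Finset.range B).filter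
        (fun n => R * D < |psum (shiftBy (n₀ + k * B) y) n|)).image
          (fun n => n₀ + (k * B + n))).card : ℝ) := by
            exact_mod_cast Finset.card_biUnion_le
        _ ≤ ∑ k ∈ Finset.Ico k₁ K', (e * B) := by
            refine Finset.sum_le_sum (fun k hk => ?_)
            rw [Finset.mem_Ico] at hk
            have h5 : ((((Finset.range B).filter
              (fun n => R * D < |psum (shiftBy (n₀ + k * B) y) n|)).image
                (fun n => n₀ + (k * B + n))).card : ℝ) ≤ (((Finset.range B).filter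
              (fun n => R * D < |psum (shiftBy (n₀ + k * B) y) n|)).card : ℝ) := by
              exact_mod_cast Finset.card_image_le
            refine h5.trans ?_
            have h6 := hc k (by omega)
            rcases le_or_gt (psum (shiftBy n₀ y) (k * B)) (target A T R D k) with h7 | h7
            · exact (h6.1 h7).2.2
            · exact (h6.2 h7).2.2
        _ = ((K' - k₁ : ℕ) : ℝ) * (e * B) := by simp
        _ ≤ K' * (e * B) := by
            have : ((K' - k₁ : ℕ) : ℝ) ≤ K' := by exact_mod_cast Nat.sub_le _ _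
            have h8 : 0 ≤ e * B := by positivity
            nlinarith
    have h9 : (((Finset.Icc 1 (n₀ + K' * B)).filter (fun n => ¬ P n)).card : ℝ) ≤
        ((n₀ + k₁ * B : ℕ) : ℝ) + 1 + (((Finset.Ico k₁ K').biUnion (fun k =>
          ((Finset.range B).filter
        (fun n => R * D < |psum (shiftBy (n₀ + k * B) y) n|)).image
          (fun n => n₀ + (k * B + n)))).card : ℝ) := by
      exact_mod_cast (h1.trans h2).trans (Nat.add_le_add_right h3 _)
    push_cast at h9
    linarith
  have hgoal : (n₀ + k₁ * B : ℝ) + 1 + K' * (e * B) ≤ η * ((n₀ + K' * B : ℕ) : ℝ) := by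
    have hn₀r : (n₀ : ℝ) ≤ B := by exact_mod_cast hn₀
    have hn₀0 : (0 : ℝ) ≤ n₀ := Nat.cast_nonneg _
    have hB1 : (1 : ℝ) ≤ B := by exact_mod_cast hB
    have hk₁r : (k₁ : ℝ) + 2 = (Kseq A T i + T + 2 : ℕ) := by
      rw [hk₁]; push_cast; ring
    have hK'r : (K' : ℝ) = A * ((k₁ : ℝ) + 2) := by
      rw [hk₁r, hK'eq]; push_cast; ring
    have h5 : ((n₀ + K' * B : ℕ) : ℝ) = n₀ + K' * B := by push_cast; ring
    rw [h5]
    exact final_arith hn₀r hn₀0 hB1 hK'r (Nat.cast_nonneg _) hA he hη
  calc (((Finset.Icc 1 (n₀ + K' * B)).filter (fun n => ¬ P n)).card : ℝ)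
      ≤ (n₀ + k₁ * B : ℝ) + 1 + K' * (e * B) := hcard
    _ ≤ η * ((n₀ + K' * B : ℕ) : ℝ) := hgoal

end Pool.Agent.K47485c
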