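import Pool.Agent.K47485c.Rokhlin

/-!
# From a good scale of the walk to a sweeping-out set on the circle
-/

namespace Pool.Agent.K47485c

open MeasureTheory Set

/-- The averages `(1/N) ∑_{n=1}^N f(lam_n x)`. -/
noncomputable def avg (lam : ℕ → ℕ) (f : UnitAddCircle → ℝ) (N : ℕ) (x : UnitAddCircle) : ℝ :=
  (∑ n ∈ Finset.Icc 1 N, f (lam n • x)) / N

/-- The partial products `∏_{i < n} om i`. -/
def prodSeq (om : ℕ → ℕ) (n : ℕ) : ℕ := ∏ i ∈ Finset.range n, om i

/-- The position `(a_n, b_n)` such that `∏_{i<n} om i = 2^{a_n} 3^{b_n}`. -/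
def posSeq (om : ℕ → ℕ) (n : ℕ) : ℕ × ℕ :=
  ∑ i ∈ Finset.range n, if om i = 2 then (1, 0) else (0, 1)

/-- One step of the centred walk. -/
noncomputable def stepOf (p : ℝ) (k : ℕ) : ℝ := if k = 2 then 1 - p else -p

/-- The centred walk `a_n - p n`. -/
noncomputable def walk (p : ℝ) (om : ℕ → ℕ) (n : ℕ) : ℝ :=
  ∑ i ∈ Finset.range n, stepOf p (om i)

lemma mult_posSeq {om : ℕ → ℕ} (hom : ∀ i, om i = 2 ∨ om i = 3) (n : ℕ) :
    mult (posSeq om n) = prodSeq om n := by
  induction n with
  | zero => simp [mult, posSeq, prodSeq]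
  | succ n ih =>
    unfold posSeq prodSeq at ih ⊢
    rw [Finset.sum_range_succ, Finset.prod_range_succ, mult_add, ih]
    rcases hom n with h | h <;> simp [h, mult]

lemma posSeq_add_le (om : ℕ → ℕ) (n : ℕ) : (posSeq om n).1 + (posSeq om n).2 = n := by
  induction n with
  | zero => simp [posSeq]
  | succ n ih =>
    unfold posSeq at ih ⊢
    rw [Finset.sum_range_succ]
    simp only [Prod.fst_add, Prod.snd_add]
    split_ifs
    · simp only; omega
    · simp only; omega

/-- The linear functional measuring the transversal coordinate. -/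
noncomputable def lin (p : ℝ) (v : ℕ × ℕ) : ℝ := (1 - p) * v.1 - p * v.2

lemma lin_add (p : ℝ) (u v : ℕ × ℕ) : lin p (u + v) = lin p u + lin p v := by
  simp only [lin, Prod.fst_add, Prod.snd_add]
  push_cast
  ring

lemma lin_posSeq (p : ℝ) (om : ℕ → ℕ) (n : ℕ) : lin p (posSeq om n) = walk p om n := by
  induction n with
  | zero => simp [posSeq, walk, lin]
  | succ n ih =>
    unfold posSeq walk at ih ⊢
    rw [Finset.sum_range_succ, Finset.sum_range_succ, lin_add, ih]
    congr 1
    by_cases h : om n = 2 <;> simp [h, lin, stepOf]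

/-- A *good scale*: for each `i < M` there is a time `N i ≥ k` such that for all but a proportion
`η` of the times `n ≤ N i` the walk is in the `i`-th window `[c + i s, c + (i+1) s)`. -/
def GoodScale (p : ℝ) (om : ℕ → ℕ) (M : ℕ) (η : ℝ) (k : ℕ) : Prop :=
  ∃ (c s : ℝ) (N : ℕ → ℕ), 0 < s ∧ ∀ i < M, k ≤ N i ∧ 0 < N i ∧
    (((Finset.Icc 1 (N i)).filter
      (fun n => ¬ (c + i * s ≤ walk p om n ∧ walk p om n < c + (i + 1) * s))).card : ℝ) ≤ η * N i

lemma floor_cases {a b : ℝ} {i : ℕ} (h1 : a + i ≤ b) (h2 : b < a + (i + 1)) :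
    ⌊b⌋ = ⌊a⌋ + i ∨ ⌊b⌋ = ⌊a⌋ + i + 1 := by
  have h3 : ⌊a⌋ + (i : ℤ) ≤ ⌊b⌋ := by
    rw [Int.le_floor]
    push_cast
    linarith [Int.floor_le a]
  have h4 : ⌊b⌋ < ⌊a⌋ + (i : ℤ) + 2 := by
    rw [Int.floor_lt]
    push_cast
    linarith [Int.lt_floor_add_one a]
  omega

theorem sweep {p : ℝ} {om : ℕ → ℕ} (hom : ∀ i, om i = 2 ∨ om i = 3) {M : ℕ} (hM : 0 < M)
    {η : ℝ} {k : ℕ} (hgood : GoodScale p om M η k) {δ : ℝ} (hδ : 0 < δ) :
    ∃ E : Set UnitAddCircle, MeasurableSet E ∧ volume E ≤ ENNReal.ofReal (2 / M) ∧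
      volume {x | ¬ ∃ N, k ≤ N ∧ 0 < N ∧ 1 - η ≤ avg (prodSeq om) (E.indicator 1) N x} ≤
        ENNReal.ofReal δ := by
  classical
  have : NeZero M := ⟨hM.ne'⟩
  obtain ⟨c, s, N, hs, hN⟩ := hgood
  obtain ⟨h, hmeas, hvol⟩ := exists_position_map (Finset.sup (Finset.range M) N) hδ
  -- the transversal coordinate
  set u : UnitAddCircle → ℝ := fun y => - lin p (h y) with hu
  have hu_meas : Measurable u := by
    have : Measurable (lin p) := measurable_of_countable _
    exact (this.comp hmeas).neg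
  set bk : UnitAddCircle → ZMod M := fun y => ((⌊u y / s⌋ : ℤ) : ZMod M) with hbk
  have hbk_meas : ∀ j : ZMod M, MeasurableSet (bk ⁻¹' {j}) := by
    intro j
    have h1 : Measurable (fun y => ⌊u y / s⌋) := Int.measurable_floor.comp (hu_meas.div_const s)
    have h2 : bk ⁻¹' {j} = (fun y => ⌊u y / s⌋) ⁻¹' {z : ℤ | (z : ZMod M) = j} := by
      ext y; simp [hbk]
    rw [h2]
    exact h1 (Set.to_countable _).measurableSet
  -- total mass of the strips
  have htot : ∑ j : ZMod M, volume (bk ⁻¹' {j}) = 1 := by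
    rw [← measure_biUnion_finset]
    · have : ⋃ j ∈ (Finset.univ : Finset (ZMod M)), bk ⁻¹' {j} = univ := by
        ext y; simp
      rw [this]
      simp
    · intro i _ j _ hij
      rw [Function.onFun, Set.disjoint_left]
      intro y h1 h2
      exact hij (h1.symm.trans h2)
    · intro j _
      exact hbk_meas j
  have htot2 : ∑ j : ZMod M, volume (bk ⁻¹' {j} ∪ bk ⁻¹' {j + 1}) ≤ 2 := by
    calc ∑ j : ZMod M, volume (bk ⁻¹' {j} ∪ bk ⁻¹' {j + 1})
        ≤ ∑ j : ZMod M, (volume (bk ⁻¹' {j}) + volume (bk ⁻¹' {j + 1})) :=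
          Finset.sum_le_sum (fun j _ => measure_union_le _ _)
      _ = ∑ j : ZMod M, volume (bk ⁻¹' {j}) + ∑ j : ZMod M, volume (bk ⁻¹' {j + 1}) :=
          Finset.sum_add_distrib
      _ = 1 + 1 := by
          rw [htot]
          congr 1
          rw [← htot]
          exact Equiv.sum_comp (Equiv.addRight (1 : ZMod M)) (fun j => volume (bk ⁻¹' {j}))
      _ = 2 := by norm_num
  obtain ⟨j, hj⟩ : ∃ j : ZMod M, volume (bk ⁻¹' {j} ∪ bk ⁻¹' {j + 1}) ≤
      ENNReal.ofReal (2 / M) := by
    by_contra hcon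
    push Not at hcon
    have hlt := ENNReal.sum_lt_sum_of_nonempty (s := (Finset.univ : Finset (ZMod M)))
      Finset.univ_nonempty (fun j _ => hcon j)
    refine absurd htot2 (not_le.2 (lt_of_eq_of_lt ?_ hlt))
    rw [Finset.sum_const, Finset.card_univ, ZMod.card, ← ENNReal.ofReal_nsmul, nsmul_eq_mul]
    have : (M : ℝ) * (2 / M) = 2 := by
      have : (M : ℝ) ≠ 0 := by exact_mod_cast hM.ne'
      field_simp
    rw [this]
    simp
  refine ⟨bk ⁻¹' {j} ∪ bk ⁻¹' {j + 1}, (hbk_meas j).union (hbk_meas (j + 1)), hj, ?_⟩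
  refine (measure_mono ?_).trans hvol
  intro x hx hgoodx
  apply hx
  -- choose the window index
  set b : ℤ := ⌊(u x + c) / s⌋ with hb
  set i : ℕ := (j - (b : ZMod M)).val with hi
  have hiM : i < M := ZMod.val_lt _
  have hicast : ((b + (i : ℤ) : ℤ) : ZMod M) = j := by
    push_cast
    rw [hi, ZMod.natCast_val, ZMod.cast_id]
    ring
  obtain ⟨hkN, hN0, hcard⟩ := hN i hiM
  refine ⟨N i, hkN, hN0, ?_⟩
  have hNr : (0 : ℝ) < N i := by exact_mod_cast hN0
  unfold avg
  rw [le_div_iff₀ hNr]
  -- the good times contribute one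
  set good := (Finset.Icc 1 (N i)).filter
      (fun n => (c + i * s ≤ walk p om n ∧ walk p om n < c + (i + 1) * s)) with hgooddef
  set bad := (Finset.Icc 1 (N i)).filter
      (fun n => ¬ (c + i * s ≤ walk p om n ∧ walk p om n < c + (i + 1) * s)) with hbaddef
  have hsplit : (good.card : ℝ) + bad.card = N i := by
    have := Finset.card_filter_add_card_filter_not (s := Finset.Icc 1 (N i))
      (fun n => (c + i * s ≤ walk p om n ∧ walk p om n < c + (i + 1) * s))
    rw [← hgooddef, ← hbaddef, Nat.card_Icc] at this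
    have h2 : good.card + bad.card = N i := by omega
    exact_mod_cast h2
  have hge : (good.card : ℝ) ≤ ∑ n ∈ Finset.Icc 1 (N i),
      (bk ⁻¹' {j} ∪ bk ⁻¹' {j + 1}).indicator (1 : UnitAddCircle → ℝ) (prodSeq om n • x) := by
    have h1 : (good.card : ℝ) = ∑ n ∈ good, (1 : ℝ) := by simp
    rw [h1]
    have hsub : good ⊆ Finset.Icc 1 (N i) := Finset.filter_subset _ _
    calc ∑ n ∈ good, (1 : ℝ)
        ≤ ∑ n ∈ good, (bk ⁻¹' {j} ∪ bk ⁻¹' {j + 1}).indicator (1 : UnitAddCircle → ℝ)
            (prodSeq om n • x) := by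
          refine Finset.sum_le_sum (fun n hn => ?_)
          rw [hgooddef, Finset.mem_filter, Finset.mem_Icc] at hn
          obtain ⟨⟨hn1, hn2⟩, hn3, hn4⟩ := hn
          have hmem : prodSeq om n • x ∈ bk ⁻¹' {j} ∪ bk ⁻¹' {j + 1} := by
            have hle := posSeq_add_le om n
            have hsup : N i ≤ Finset.sup (Finset.range M) N :=
              Finset.le_sup (f := N) (Finset.mem_range.2 hiM)
            have heq := hgoodx (posSeq om n) (by omega) (by omega)
            rw [mult_posSeq hom] at heq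
            have hux : u (prodSeq om n • x) = u x + walk p om n := by
              have h5 := congrArg (lin p) heq
              rw [lin_add, lin_posSeq] at h5
              simp only [hu]
              linarith
            have hfl := floor_cases (a := (u x + c) / s) (b := u (prodSeq om n • x) / s) (i := i)
              (by rw [hux, div_add' _ _ _ hs.ne', div_le_div_iff_of_pos_right hs]; linarith)
              (by rw [hux, div_add' _ _ _ hs.ne', div_lt_div_iff_of_pos_right hs]; linarith)
            rcases hfl with hfl | hfl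
            · left
              show ((⌊u (prodSeq om n • x) / s⌋ : ℤ) : ZMod M) = j
              rw [hfl]
              exact hicast
            · right
              show ((⌊u (prodSeq om n • x) / s⌋ : ℤ) : ZMod M) = j + 1
              rw [hfl, ← hicast]
              push_cast
              ring
          rw [indicator_of_mem hmem]
          simp
      _ ≤ _ := by
          refine Finset.sum_le_sum_of_subset_of_nonneg hsub (fun n _ _ => ?_)
          exact indicator_nonneg (fun _ _ => zero_le_one) _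
  calc (1 - η) * (N i : ℝ) = N i - η * N i := by ring
    _ ≤ good.card := by linarith
    _ ≤ _ := hge

end Pool.Agent.K47485c
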